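import Pool.Agent.H32.Dense.Split
import Pool.Agent.H90.STK.Defs

/-!
# LEMMA J, row J1 (abstract form): fullness given the label of the other time, on events

`X` the second point, `Z` the first label, `bs` the base coordinates of `X` (`M` digits each), `nn`
its passive coordinate. If `X` is full given `Z` up to a small total deficit, then on every event
`B` and given the cell of `X` of a (random) size, it is full up to the deficit divided by the
probability of the event.
-/

set_option autoImplicit false

namespace Pool.KJ

open Finset Real
open Pool.Agent.H49.Ent Pool.Agent.H32.Dense Pool.STK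

open Classical in
/-- Splitting a conditional entropy over an event. -/
theorem CH_two {V S T : Type} [Fintype V] {q : V → ℝ} (hq0 : ∀ v, 0 ≤ q v) (X : V → S) (Y : V → T)
    (B : V → Prop) :
    CH q X (fun v => (Y v, decide (B v))) = law q B True * CH (cond q B True) X Y +
      law q B False * CH (cond q B False) X Y := by
  have e1 : ∀ (t : Bool) (P : Prop), (t = true ↔ P) →
      law q (fun v => decide (B v)) t = law q B P := by
    intro t P h
    unfold law
    refine Finset.sum_congr rfl fun v _ => ?_
    by_cases hB : B v
    · cases t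
      · have : ¬ P := fun hP => absurd (h.2 hP) Bool.false_ne_true
        simp [hB, this]
      · have : P := h.1 rfl
        simp [hB, this]
    · cases t
      · have : ¬ P := fun hP => absurd (h.2 hP) Bool.false_ne_true
        simp [hB, this]
      · have : P := h.1 rfl
        simp [hB, this]
  have e2 : ∀ (t : Bool) (P : Prop), (t = true ↔ P) →
      cond q (fun v => decide (B v)) t = cond q B P := by
    intro t P h
    funext v
    unfold Pool.Agent.H49.Ent.cond
    rw [e1 t P h]
    by_cases hB : B v
    · cases t
      · have : ¬ P := fun hP => absurd (h.2 hP) Bool.false_ne_true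
        simp [hB, this]
      · have : P := h.1 rfl
        simp [hB, this]
    · cases t
      · have : ¬ P := fun hP => absurd (h.2 hP) Bool.false_ne_true
        simp [hB, this]
      · have : P := h.1 rfl
        simp [hB, this]
  rw [CH_split hq0]
  have h1 : univ.image (fun v => decide (B v)) ⊆ ({true, false} : Finset Bool) := by
    intro t _
    cases t <;> simp
  rw [Finset.sum_subset h1, Finset.sum_pair (by simp)]
  · rw [e1 true True (by simp), e1 false False (by simp), e2 true True (by simp),
      e2 false False (by simp)]
  · intro t _ ht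
    have : law q (fun v => decide (B v)) t = 0 := by
      unfold law
      refine Finset.sum_eq_zero fun v _ => ?_
      rw [if_neg]
      intro h
      exact ht (Finset.mem_image.2 ⟨v, Finset.mem_univ _, h⟩)
    rw [this, zero_mul]

/-- The part of a conditional entropy on an event. -/
theorem CH_part {V S T : Type} [Fintype V] {q : V → ℝ} (hq0 : ∀ v, 0 ≤ q v) (X : V → S)
    (Y : V → T) (B : V → Prop) : law q B False * CH (cond q B False) X Y ≤ CH q X Y := by
  classical
  have h1 := CH_two hq0 X Y B
  have h2 : CH q X (fun v => (Y v, decide (B v))) ≤ CH q X Y :=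
    CH_mono_cond hq0 fun _ _ _ _ h => (Prod.ext_iff.mp h).1
  have h3 : 0 ≤ law q B True * CH (cond q B True) X Y :=
    mul_nonneg (law_nonneg hq0 _ _) (CH_nonneg (cond_nonneg hq0 _ _) _ _)
  linarith

open Classical in
/-- The mean over the conditional law. -/
theorem law_mul_Ex {V : Type} [Fintype V] {q : V → ℝ} (hq0 : ∀ v, 0 ≤ q v) (B : V → Prop)
    (f : V → ℝ) : law q B False * Ex (cond q B False) f = ∑ v, if B v then 0 else q v * f v := by
  unfold Ex
  rw [Finset.mul_sum]
  refine Finset.sum_congr rfl fun v _ => ?_
  unfold Pool.Agent.H49.Ent.cond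
  by_cases hB : B v
  · rw [if_pos hB, if_neg (by simpa using hB)]
    ring
  · rw [if_neg hB, if_pos (by simpa using hB)]
    rcases (hq0 v).eq_or_lt with h0 | h0
    · simp [← h0]
    · have h1 : 0 < law q B False := by
        have := law_pos hq0 B h0
        have e : B v = False := by simpa using hB
        rwa [e] at this
      field_simp

open Classical in
/-- **(F3), abstract form.** -/
theorem j1_abs {V Ξ ζ : Type} [Fintype V] {q : V → ℝ} (hq : IsLaw q) {n M : ℕ} (X : V → Ξ)
    (Z : V → ζ) (bs : V → Fin n → ℕ) (nn : V → ℕ) (hbs : ∀ v i, bs v i < 2 ^ M) (b : V → ℕ)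
    (hb : ∀ v, b v ≤ M) (B : V → Prop) (h₁ c e₅ : ℝ) (H1 : h₁ ≤ CH q X Z)
    (Hc : CH q nn (fun v => (bs v, Z v)) ≤ c) (He : CH q X (fun v => (bs v, nn v)) ≤ e₅) :
    h₁ - n * (M * Real.log 2) + (∑ v, if B v then q v * (n * (b v * Real.log 2)) else 0) -
        Real.log (M + 1) - Real.log 2 - c - e₅ ≤
      law q B True * CH (cond q B True) X
        (fun v => (Z v, b v, fun i => bs v i / 2 ^ b v)) := by
  have hq0 := hq.nonneg
  set S : V → Fin n → ℕ := fun v i => bs v i / 2 ^ b v with hS
  have hl2 : 0 < Real.log 2 := Real.log_pos (by norm_num)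
  -- the cells
  have a1 : CH q b Z ≤ Real.log (M + 1) := by
    refine (CH_le_card hq0 hq.sum_one b Z (fun _ => range (M + 1)) fun v _ => ?_).trans ?_
    · exact Finset.mem_range.2 (Nat.lt_succ_of_le (hb v))
    · rw [Ex_const hq.sum_one, Finset.card_range]
      push_cast
      exact le_rfl
  have a2 : CH q S (fun v => (b v, Z v)) ≤
      Ex q (fun v => n * (((M : ℝ) - b v) * Real.log 2)) := by
    refine (CH_le_card hq0 hq.sum_one S (fun v => (b v, Z v))
      (fun w => Fintype.piFinset fun _ : Fin n => range (2 ^ (M - w.1))) fun v _ => ?_).trans ?_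
    · rw [Fintype.mem_piFinset]
      intro i
      rw [Finset.mem_range]
      change bs v i / 2 ^ b v < 2 ^ (M - b v)
      rw [Nat.div_lt_iff_lt_mul (pow_pos two_pos _), ← pow_add, Nat.sub_add_cancel (hb v)]
      exact hbs v i
    · refine le_of_eq ?_
      congr 1
      funext v
      rw [Fintype.card_piFinset, Finset.prod_const, Finset.card_univ, Fintype.card_fin,
        Finset.card_range]
      push_cast
      rw [← pow_mul, Real.log_pow]
      push_cast
      rw [Nat.cast_sub (hb v)]
      ring
  have a3 : CH q X Z ≤ CH q b Z + CH q S (fun v => (b v, Z v)) +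
      CH q X (fun v => (Z v, b v, S v)) := by
    have g1 := CH_le_add hq0 X b Z
    have g2 := CH_le_add hq0 X S (fun v => (b v, Z v))
    have g3 : CH q X (fun v => (S v, b v, Z v)) = CH q X (fun v => (Z v, b v, S v)) := by
      refine CH_congr hq0 ?_ ?_ ?_ ?_
      · exact fun _ _ _ _ h => (Prod.ext_iff.mp h).1
      · exact fun _ _ _ _ h => (Prod.ext_iff.mp h).1
      · intro ω ω' _ _ h
        simp only [Prod.mk.injEq] at h ⊢
        tauto
      · intro ω ω' _ _ h
        simp only [Prod.mk.injEq] at h ⊢
        tauto
    linarith
  -- the event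
  have a4 : CH q X (fun v => (Z v, b v, S v)) ≤ Real.log 2 +
      (law q B True * CH (cond q B True) X (fun v => (Z v, b v, S v)) +
        law q B False * CH (cond q B False) X (fun v => (Z v, b v, S v))) := by
    rw [← CH_two hq0]
    have g1 := CH_le_add hq0 X (fun v => decide (B v)) (fun v => (Z v, b v, S v))
    have g2 : CH q (fun v => decide (B v)) (fun v => (Z v, b v, S v)) ≤ Real.log 2 := by
      refine (CH_le_card hq0 hq.sum_one _ _ (fun _ => Finset.univ)
        (fun ω _ => Finset.mem_univ _)).trans ?_
      rw [Ex_const hq.sum_one]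
      simp
    have g3 : CH q X (fun v => (decide (B v), Z v, b v, S v)) =
        CH q X (fun v => ((Z v, b v, S v), decide (B v))) := by
      refine CH_congr hq0 ?_ ?_ ?_ ?_
      · exact fun _ _ _ _ h => (Prod.ext_iff.mp h).1
      · exact fun _ _ _ _ h => (Prod.ext_iff.mp h).1
      · intro ω ω' _ _ h
        simp only [Prod.mk.injEq] at h ⊢
        tauto
      · intro ω ω' _ _ h
        simp only [Prod.mk.injEq] at h ⊢
        tauto
    linarith
  -- the complement
  have hr0 := cond_nonneg hq0 B False
  have a5 : law q B False * CH (cond q B False) X (fun v => (Z v, b v, S v)) ≤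
      (∑ v, if B v then 0 else q v * (n * (b v * Real.log 2))) + c + e₅ := by
    rcases (law_nonneg hq0 B False).eq_or_lt with h0 | h0
    · rw [← h0, zero_mul]
      have g1 : 0 ≤ ∑ v, if B v then 0 else q v * (n * (b v * Real.log 2)) := by
        refine Finset.sum_nonneg fun v _ => ?_
        split_ifs
        · exact le_rfl
        · have := hq0 v
          positivity
      have g2 := (CH_nonneg hq0 nn (fun v => (bs v, Z v))).trans Hc
      have g3 := (CH_nonneg hq0 X (fun v => (bs v, nn v))).trans He
      linarith
    have hr1 : ∑ v, cond q B False v = 1 := sum_cond q B h0.ne'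
    have g1 : CH (cond q B False) X (fun v => (Z v, b v, S v)) ≤
        CH (cond q B False) bs (fun v => (b v, S v)) +
          CH (cond q B False) nn (fun v => (bs v, Z v)) +
          CH (cond q B False) X (fun v => (bs v, nn v)) := by
      have k1 := CH_le_add hr0 X bs (fun v => (Z v, b v, S v))
      have k2 := CH_le_add hr0 X nn (fun v => (bs v, Z v, b v, S v))
      have k3 : CH (cond q B False) bs (fun v => (Z v, b v, S v)) ≤
          CH (cond q B False) bs (fun v => (b v, S v)) :=
        CH_mono_cond hr0 fun _ _ _ _ h => by
          simp only [Prod.mk.injEq] at h ⊢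
          tauto
      have k4 : CH (cond q B False) nn (fun v => (bs v, Z v, b v, S v)) ≤
          CH (cond q B False) nn (fun v => (bs v, Z v)) :=
        CH_mono_cond hr0 fun _ _ _ _ h => by
          simp only [Prod.mk.injEq] at h ⊢
          tauto
      have k5 : CH (cond q B False) X (fun v => (nn v, bs v, Z v, b v, S v)) ≤
          CH (cond q B False) X (fun v => (bs v, nn v)) :=
        CH_mono_cond hr0 fun _ _ _ _ h => by
          simp only [Prod.mk.injEq] at h ⊢
          tauto
      linarith
    have g2 : CH (cond q B False) bs (fun v => (b v, S v)) ≤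
        Ex (cond q B False) (fun v => n * (b v * Real.log 2)) := by
      refine (CH_le_card hr0 hr1 bs (fun v => (b v, S v))
        (fun w => Fintype.piFinset fun i : Fin n => Ico (w.2 i * 2 ^ w.1)
          ((w.2 i + 1) * 2 ^ w.1)) fun v _ => ?_).trans ?_
      · rw [Fintype.mem_piFinset]
        intro i
        rw [Finset.mem_Ico]
        change bs v i / 2 ^ b v * 2 ^ b v ≤ bs v i ∧ bs v i < (bs v i / 2 ^ b v + 1) * 2 ^ b v
        refine ⟨Nat.div_mul_le_self _ _, ?_⟩
        have h2 := Nat.lt_div_mul_add (a := bs v i) (pow_pos (two_pos (α := ℕ)) (b v))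
        rw [add_mul, one_mul]
        exact h2
      · refine le_of_eq ?_
        congr 1
        funext v
        rw [Fintype.card_piFinset]
        have : ∀ i : Fin n, (Ico (S v i * 2 ^ b v) ((S v i + 1) * 2 ^ b v)).card = 2 ^ b v := by
          intro i
          rw [Nat.card_Ico, add_mul, one_mul, Nat.add_sub_cancel_left]
        rw [Finset.prod_congr rfl fun i _ => this i, Finset.prod_const, Finset.card_univ,
          Fintype.card_fin]
        push_cast
        rw [← pow_mul, Real.log_pow]
        push_cast
        ring
    have g3 := CH_part hq0 nn (fun v => (bs v, Z v)) B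
    have g4 := CH_part hq0 X (fun v => (bs v, nn v)) B
    have g5 := law_mul_Ex hq0 B (fun v => n * (b v * Real.log 2))
    have g6 := mul_le_mul_of_nonneg_left (g1.trans (add_le_add (add_le_add g2 le_rfl) le_rfl)) h0.le
    have g7 : law q B False * (Ex (cond q B False) (fun v => n * (b v * Real.log 2)) +
        CH (cond q B False) nn (fun v => (bs v, Z v)) +
        CH (cond q B False) X (fun v => (bs v, nn v))) =
        law q B False * Ex (cond q B False) (fun v => n * (b v * Real.log 2)) +
        law q B False * CH (cond q B False) nn (fun v => (bs v, Z v)) +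
        law q B False * CH (cond q B False) X (fun v => (bs v, nn v)) := by ring
    rw [g7, g5] at g6
    linarith
  -- the sum
  have a6 : Ex q (fun v => n * (((M : ℝ) - b v) * Real.log 2)) =
      n * (M * Real.log 2) - ((∑ v, if B v then q v * (n * (b v * Real.log 2)) else 0) +
        ∑ v, if B v then 0 else q v * (n * (b v * Real.log 2))) := by
    unfold Ex
    rw [← Finset.sum_add_distrib]
    have k1 : ∀ v ∈ (Finset.univ : Finset V), q v * (n * (((M : ℝ) - b v) * Real.log 2)) =
        q v * (n * (M * Real.log 2)) - ((if B v then q v * (n * (b v * Real.log 2)) else 0) +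
          if B v then 0 else q v * (n * (b v * Real.log 2))) := by
      intro v _
      split_ifs <;> ring
    rw [Finset.sum_congr rfl k1, Finset.sum_sub_distrib, ← Finset.sum_mul, hq.sum_one, one_mul]
  linarith

end Pool.KJ
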