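import Pool.Agent.H32.Dense.EntX

/-!
# Nested contexts with carries

`Z` is a label, `y i` the blocks of a sequence of digits, `b i` contexts. Each context is a function
of `(Z, y 0, …, y (i-1))` and of the carries `c 0, …, c i`. Then the blocks are full given
`(Z, b i)` up to the total deficit of the sequence given `Z` and the sum of the entropies of the
carries.
-/

set_option autoImplicit false

namespace Pool.KJ

open Finset Real
open Pool.Agent.H49.Ent Pool.Agent.H32.Dense

variable {Ω : Type}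

/-- The first `n` members of a sequence of random variables. -/
def pre {A : Type} (y : ℕ → Ω → A) (n : ℕ) (ω : Ω) : Fin n → A := fun j => y j ω

theorem pre_succ_det {A : Type} (p : Ω → ℝ) (y : ℕ → Ω → A) (n : ℕ) :
    Det p (fun ω => (pre y n ω, y n ω)) (pre y (n + 1)) := by
  intro ω ω' _ _ h
  have h1 := (Prod.ext_iff.mp h)
  funext j
  rcases lt_or_eq_of_le (Nat.lt_succ_iff.mp j.2) with hj | hj
  · exact congrFun h1.1 ⟨j, hj⟩
  · have h2 : y n ω = y n ω' := h1.2
    change y j ω = y j ω'
    rw [hj]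
    exact h2

theorem pre_succ_det' {A : Type} (p : Ω → ℝ) (y : ℕ → Ω → A) (n : ℕ) :
    Det p (pre y (n + 1)) (fun ω => (pre y n ω, y n ω)) := by
  intro ω ω' _ _ h
  refine Prod.ext ?_ ?_
  · funext j
    exact congrFun h ⟨j, j.2.trans (Nat.lt_succ_self n)⟩
  · exact congrFun h ⟨n, Nat.lt_succ_self n⟩

/-- **Chain rule with carries.** -/
theorem car_thm [Fintype Ω] {ζ A C B : Type} {p : Ω → ℝ} (hp : ∀ ω, 0 ≤ p ω) (Z : Ω → ζ)
    (y : ℕ → Ω → A) (c : ℕ → Ω → C) (b : ℕ → Ω → B) (n : ℕ)
    (hb : ∀ i, i < n → Det p (fun ω => (Z ω, pre y i ω, pre c (i + 1) ω)) (b i)) :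
    CH p (pre y n) Z ≤ ∑ i ∈ range n, CH p (y i) (fun ω => (Z ω, b i ω)) +
      ∑ i ∈ range n, CH p (c i) (fun ω => (Z ω, pre y i ω)) := by
  have key : ∀ n, (∀ i, i < n → Det p (fun ω => (Z ω, pre y i ω, pre c (i + 1) ω)) (b i)) →
      CH p (fun ω => (pre y n ω, pre c n ω)) Z ≤
        ∑ i ∈ range n, CH p (y i) (fun ω => (Z ω, b i ω)) +
        ∑ i ∈ range n, CH p (c i) (fun ω => (Z ω, pre y i ω)) := by
    intro n
    induction n with
    | zero =>
      intro _
      rw [sum_range_zero, sum_range_zero, add_zero]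
      refine le_of_eq (CH_eq_zero hp ?_)
      intro ω ω' _ _ _
      refine Prod.ext ?_ ?_
      · funext j; exact j.elim0
      · funext j; exact j.elim0
    | succ n ih =>
      intro hb
      have h1 := ih fun i hi => hb i (hi.trans (Nat.lt_succ_self n))
      rw [sum_range_succ, sum_range_succ]
      have e1 : CH p (fun ω => (pre y (n + 1) ω, pre c (n + 1) ω)) Z =
          CH p (fun ω => ((y n ω, c n ω), (pre y n ω, pre c n ω))) Z := by
        refine CH_congr hp ?_ ?_ (fun _ _ _ _ h => h) (fun _ _ _ _ h => h)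
        · intro ω ω' a1 a2 h
          have h2 := Prod.ext_iff.mp h
          have h3 := Prod.ext_iff.mp h2.1
          have h4 := Prod.ext_iff.mp (pre_succ_det' p y n ω ω' a1 a2 h3.1)
          have h5 := Prod.ext_iff.mp (pre_succ_det' p c n ω ω' a1 a2 h3.2)
          exact Prod.ext (Prod.ext h4.2 h5.2) (Prod.ext h4.1 h5.1)
        · intro ω ω' a1 a2 h
          have h2 := Prod.ext_iff.mp h
          have h3 := Prod.ext_iff.mp h2.1
          have h4 := Prod.ext_iff.mp h3.1
          have h5 := Prod.ext_iff.mp h3.2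
          exact Prod.ext (pre_succ_det p y n ω ω' a1 a2 (Prod.ext h5.1 h4.1))
            (pre_succ_det p c n ω ω' a1 a2 (Prod.ext h5.2 h4.2))
      rw [e1, CH_chain hp (fun ω => (y n ω, c n ω)), CH_chain hp (y n) (c n)]
      have h2 : CH p (c n) (fun ω => ((pre y n ω, pre c n ω), Z ω)) ≤
          CH p (c n) (fun ω => (Z ω, pre y n ω)) := by
        refine CH_mono_cond hp ?_
        intro ω ω' _ _ h
        have h3 := Prod.ext_iff.mp h
        have h4 := Prod.ext_iff.mp h3.1
        exact Prod.ext h3.2 h4.1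
      have h3 : CH p (y n) (fun ω => (c n ω, (pre y n ω, pre c n ω), Z ω)) ≤
          CH p (y n) (fun ω => (Z ω, b n ω)) := by
        refine CH_mono_cond hp ?_
        intro ω ω' a1 a2 h
        have h4 := Prod.ext_iff.mp h
        have h5 := Prod.ext_iff.mp h4.2
        have h6 := Prod.ext_iff.mp h5.1
        have h7 := pre_succ_det p c n ω ω' a1 a2 (Prod.ext h6.2 h4.1)
        exact Prod.ext h5.2 (hb n (Nat.lt_succ_self n) ω ω' a1 a2
          (Prod.ext h5.2 (Prod.ext h6.1 h7)))
      linarith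
  refine le_trans ?_ (key n hb)
  refine CH_mono_left hp ?_
  intro ω ω' _ _ h
  exact (Prod.ext_iff.mp (Prod.ext_iff.mp h).1).1

end Pool.KJ
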