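import Pool.Agent.H4.KJ.JCA
import Pool.Agent.H72.KJ.J5S

/-!
# LEMMA J, row J5: the count (CNT5)
-/

set_option autoImplicit false

namespace Pool.KJ

open Finset Real
open Pool.Agent.H49.Ent Pool.Agent.H32.Dense Pool.STK Pool.KAF Pool.KAL Pool.KST Pool.KS3

namespace C5

/-- Counting by lines parallel to one axis. -/
theorem count_lines {n L b : ℕ} (k : Fin n) (F : Finset (Fin n → ℕ)) (κ c₀ : Fin n → ℕ)
    (P : (Fin n → ℕ) → Prop) {K : ℝ} (hK : 0 ≤ K)
    (h1 : ∀ u ∈ F, u k / 2 ^ L = c₀ k) (h2 : ∀ u ∈ F, ∀ i, u i / 2 ^ (L - b) = κ i)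
    (h3 : ∀ u ∈ F, P (fun i => u i % 2 ^ L))
    (hline : ∀ (w : Fin n → ℕ) (E : Finset ℕ), (∀ t ∈ E, P (Function.update w k t)) →
      (E.card : ℝ) ≤ K) : (F.card : ℝ) ≤ K * (2 ^ (L - b)) ^ (n - 1) := by
  classical
  obtain ⟨d, hd⟩ : ∃ d, d = L - b := ⟨_, rfl⟩
  rw [← hd] at h2 ⊢
  have hfib : ∀ a ∈ F.image (fun u => Function.update u k 0),
      (F.filter (fun u => Function.update u k 0 = a)).card ≤ ⌊K⌋₊ := by
    intro a _
    refine Nat.le_floor ?_
    have hinj : Set.InjOn (fun u : Fin n → ℕ => u k % 2 ^ L)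
        (F.filter (fun u => Function.update u k 0 = a) : Set (Fin n → ℕ)) := by
      intro u hu u' hu' he
      rw [Finset.mem_coe, Finset.mem_filter] at hu hu'
      have he' : u k % 2 ^ L = u' k % 2 ^ L := he
      have e1 : u k = u' k := by
        rw [← Nat.div_add_mod (u k) (2 ^ L), ← Nat.div_add_mod (u' k) (2 ^ L), h1 u hu.1,
          h1 u' hu'.1, he']
      funext i
      by_cases hi : i = k
      · rw [hi, e1]
      · have e2 := congrFun (hu.2.trans hu'.2.symm) i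
        rwa [Function.update_of_ne hi, Function.update_of_ne hi] at e2
    rw [← Finset.card_image_of_injOn hinj]
    refine hline (fun i => a i % 2 ^ L) _ ?_
    intro t ht
    obtain ⟨u, hu, rfl⟩ := Finset.mem_image.1 ht
    rw [Finset.mem_filter] at hu
    have e3 : Function.update (fun i => a i % 2 ^ L) k (u k % 2 ^ L) =
        fun i => u i % 2 ^ L := by
      funext i
      by_cases hi : i = k
      · rw [hi, Function.update_self]
      · rw [Function.update_of_ne hi, ← hu.2, Function.update_of_ne hi]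
    rw [e3]
    exact h3 u hu.1
  have himg : (F.image (fun u => Function.update u k 0)).card ≤ (2 ^ d) ^ (n - 1) := by
    have hsub : F.image (fun u => Function.update u k 0) ⊆ Fintype.piFinset
        (fun i : Fin n => if i = k then {0} else Ico (κ i * 2 ^ d) ((κ i + 1) * 2 ^ d)) := by
      intro w hw
      obtain ⟨u, hu, rfl⟩ := Finset.mem_image.1 hw
      rw [Fintype.mem_piFinset]
      intro i
      by_cases hi : i = k
      · rw [hi, Function.update_self, if_pos rfl, Finset.mem_singleton]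
      · rw [Function.update_of_ne hi, if_neg hi, Finset.mem_Ico, ← h2 u hu i]
        constructor
        · exact Nat.div_mul_le_self _ _
        · have h3 := Nat.lt_div_mul_add (a := u i) (b := 2 ^ d) (by positivity)
          rw [add_mul, one_mul]
          exact h3
    refine (Finset.card_le_card hsub).trans ?_
    rw [Fintype.card_piFinset]
    have e1 : ∀ i : Fin n, (if i = k then ({0} : Finset ℕ) else
        Ico (κ i * 2 ^ d) ((κ i + 1) * 2 ^ d)).card = if i = k then 1 else 2 ^ d := by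
      intro i
      split_ifs
      · exact Finset.card_singleton _
      · rw [Nat.card_Ico, add_mul, one_mul, Nat.add_sub_cancel_left]
    rw [Finset.prod_congr rfl fun i _ => e1 i, Finset.prod_ite, Finset.prod_const_one, one_mul,
      Finset.prod_const]
    have e2 : (univ.filter (fun i : Fin n => ¬ i = k)).card = n - 1 := by
      have e3 : univ.filter (fun i : Fin n => ¬ i = k) = univ.erase k := by
        ext i
        simp
      rw [e3, Finset.card_erase_of_mem (Finset.mem_univ _), Finset.card_univ, Fintype.card_fin]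
    rw [e2]
  have h4 := Finset.card_le_mul_card_image F _ hfib
  have h5 : (F.card : ℝ) ≤ (⌊K⌋₊ : ℝ) * ((F.image (fun u => Function.update u k 0)).card : ℝ) := by
    exact_mod_cast h4
  have h6 : ((F.image (fun u => Function.update u k 0)).card : ℝ) ≤ (2 ^ d) ^ (n - 1) := by
    exact_mod_cast himg
  calc (F.card : ℝ) ≤ (⌊K⌋₊ : ℝ) * ((F.image (fun u => Function.update u k 0)).card : ℝ) := h5
    _ ≤ K * (2 ^ d) ^ (n - 1) :=
        mul_le_mul (Nat.floor_le hK) h6 (Nat.cast_nonneg _) hK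

theorem tc_sub {n : ℕ} (b : ℕ) (h h' : MvPolynomial (Fin n) ℝ) (y : Fin n → ℝ)
    (β : Fin n →₀ ℕ) : tc b (h - h') y β = tc b h y β - tc b h' y β := by
  unfold tc shA
  rw [map_sub, MvPolynomial.coeff_sub]

theorem cs_tri {n : ℕ} {c : Fin n → ℝ} {s : ℝ} (hs : 0 ≤ s) (h h' : MvPolynomial (Fin n) ℝ) :
    cs c s h ≤ cs c s h' + cs c s (h - h') := by
  refine SML.cs_le _ (add_nonneg (SML.cs_nonneg _ _ _) (SML.cs_nonneg _ _ _)) fun y hy => ?_
  have h1 := SML.le_cs hs h' hy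
  have h2 := SML.le_cs hs (h - h') hy
  have e : MvPolynomial.eval y h = MvPolynomial.eval y h' + MvPolynomial.eval y (h - h') := by
    rw [map_sub]
    ring
  rw [e]
  exact (abs_add_le _ _).trans (add_le_add h1 h2)

theorem cs_symm {n : ℕ} {c : Fin n → ℝ} {s : ℝ} (hs : 0 ≤ s) (h h' : MvPolynomial (Fin n) ℝ) :
    cs c s h' ≤ cs c s h + cs c s (h - h') := by
  refine SML.cs_le _ (add_nonneg (SML.cs_nonneg _ _ _) (SML.cs_nonneg _ _ _)) fun y hy => ?_
  have h1 := SML.le_cs hs h hy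
  have h2 := SML.le_cs hs (h - h') hy
  have e : MvPolynomial.eval y h' = MvPolynomial.eval y h - MvPolynomial.eval y (h - h') := by
    rw [map_sub]
    ring
  rw [e]
  exact (abs_sub _ _).trans (add_le_add h1 h2)

/-- The numerical estimate for one pair of graphs. -/
theorem near_graph {CD CT Mv M0 t1 t2 t1' t2' d1 d2 dd : ℝ} {pp ep : ℕ} (hCD : 1 ≤ CD)
    (hCT : 1 ≤ CT) (hM0 : 0 < M0) (hpp : 4 * (CT * CD) * 2 ^ ep ≤ 2 ^ pp)
    (hdd0 : 0 ≤ dd) (hdd : dd ≤ CD / 2 ^ pp * M0) (h1 : Mv ≤ M0 + dd) (h2 : M0 ≤ Mv + dd)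
    (ht1 : |t1| ≤ Mv / 2 ^ pp) (ht2 : Mv ≤ 2 ^ ep * |t2|) (e1 : d1 = t1 - t1')
    (e2 : d2 = t2 - t2') (hd1 : |d1| ≤ CT * dd) (hd2 : |d2| ≤ CT * dd) :
    |t1'| ≤ (1 + CD + CT * CD) * M0 / 2 ^ pp ∧ M0 / (4 * 2 ^ ep) ≤ |t2'| := by
  have hE : (1 : ℝ) ≤ 2 ^ ep := one_le_pow₀ (by norm_num)
  have hP : (0 : ℝ) < 2 ^ pp := by positivity
  have hE0 : (0 : ℝ) < 2 ^ ep := by positivity
  have hCC : 1 ≤ CT * CD := by nlinarith only [hCD, hCT]
  have hCC' : CD ≤ CT * CD := by nlinarith only [hCT, hCD]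
  -- the bound of the difference
  have h3 : CT * dd ≤ CT * CD * M0 / 2 ^ pp := by
    calc CT * dd ≤ CT * (CD / 2 ^ pp * M0) := mul_le_mul_of_nonneg_left hdd (by linarith)
      _ = CT * CD * M0 / 2 ^ pp := by ring
  have h4 : CT * CD * M0 / 2 ^ pp ≤ M0 / (4 * 2 ^ ep) := by
    rw [div_le_div_iff₀ hP (by positivity)]
    calc CT * CD * M0 * (4 * 2 ^ ep) = (4 * (CT * CD) * 2 ^ ep) * M0 := by ring
      _ ≤ 2 ^ pp * M0 := mul_le_mul_of_nonneg_right hpp hM0.le
      _ = M0 * 2 ^ pp := by ring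
  have h5 : dd ≤ M0 / 4 := by
    have k1 : dd ≤ CT * dd := by nlinarith only [hCT, hdd0]
    have k2 : M0 / (4 * 2 ^ ep) ≤ M0 / 4 := by
      apply div_le_div_of_nonneg_left hM0.le (by norm_num)
      linarith only [hE]
    linarith only [h3, h4, k1, k2]
  have h6 : dd ≤ CD * M0 := by
    have : M0 / 4 ≤ CD * M0 := by nlinarith only [hM0, hCD]
    linarith only [h5, this]
  have h7 : Mv ≤ (1 + CD) * M0 := by nlinarith only [h1, h6]
  have h8 : M0 ≤ 2 * Mv := by linarith only [hM0, h2, h5]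
  constructor
  · have k1 : |t1'| ≤ |t1| + |d1| := by
      have : t1' = t1 - d1 := by rw [e1]; ring
      rw [this]
      exact abs_sub _ _
    have k2 : Mv / 2 ^ pp ≤ (1 + CD) * M0 / 2 ^ pp := div_le_div_of_nonneg_right h7 hP.le
    calc |t1'| ≤ (1 + CD) * M0 / 2 ^ pp + CT * CD * M0 / 2 ^ pp := by linarith only [ht1, hd1, h3, k1, k2]
      _ = (1 + CD + CT * CD) * M0 / 2 ^ pp := by ring
  · have k1 : |t2| ≤ |t2'| + |d2| := by
      have : t2 = t2' + d2 := by rw [e2]; ring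
      rw [this]
      exact abs_add_le _ _
    have k2 : Mv / 2 ^ ep ≤ |t2| := by
      rw [div_le_iff₀ hE0]
      linarith only [ht2]
    have k3 : M0 / (4 * 2 ^ ep) + M0 / (4 * 2 ^ ep) ≤ Mv / 2 ^ ep := by
      have : M0 / (4 * 2 ^ ep) + M0 / (4 * 2 ^ ep) = (M0 / 2) / 2 ^ ep := by
        field_simp
        ring
      rw [this]
      exact div_le_div_of_nonneg_right (by linarith only [hM0, h2, h5]) hE0.le
    linarith only [hd2, h3, h4, k1, k2, k3]

end C5

/-- **CNT5** from SLC, DIF and TCB. -/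
theorem cnt5_of (hS : SLCStmt) (hD : DIFStmt) (hT : TCBStmt) : CNT5Stmt := by
  classical
  intro n D k₀ C₀ _
  obtain ⟨CS, hCS, hS⟩ := hS n ((k₀ + 1) * D)
  obtain ⟨CD, hCD, hD⟩ := hD n D
  obtain ⟨CT, hCT, hT⟩ := hT n ((k₀ + 1) * D)
  obtain ⟨C3, hC3⟩ : ∃ C3, C3 = CS * (4 * (1 + CD + CT * CD) + 1) := ⟨_, rfl⟩
  have hCC : 1 ≤ CT * CD := by nlinarith only [hCD, hCT]
  have hC3a : 4 * (CT * CD) ≤ C3 := by rw [hC3]; nlinarith only [hCS, hCD, hCC]
  have hC31 : 1 ≤ C3 := by linarith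
  refine ⟨C3, hC31, ?_⟩
  intro a L Ω Λ Ξ Z W _ p lam x T pos A B zx zl cz G Q cd q bb R' pp ep P₀ β' k hF hG hQ hcd hq
    hqp hRP hep hC hv
  have hl2 : 0 < Real.log 2 := Real.log_pos (by norm_num)
  have hpe : C3 * 2 ^ ep ≤ (2 : ℝ) ^ pp := by
    have k1 : C3 ≤ Real.exp C3 := by linarith only [Real.add_one_le_exp C3]
    have k2 : Real.exp C3 ≤ 2 ^ (pp - ep) := by
      have k3 : (2 : ℝ) ^ (pp - ep) = Real.exp ((pp - ep : ℕ) * Real.log 2) := by
        rw [Real.exp_nat_mul, Real.exp_log (by norm_num)]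
      rw [k3, Nat.cast_sub hep]
      exact Real.exp_le_exp.2 hC
    calc C3 * 2 ^ ep ≤ 2 ^ (pp - ep) * 2 ^ ep :=
          mul_le_mul_of_nonneg_right (k1.trans k2) (by positivity)
      _ = 2 ^ pp := by rw [← pow_add, Nat.sub_add_cancel hep]
  obtain ⟨Wf, hWf⟩ : ∃ Wf : Ω × Ω → (( Option (Fin n) → ℕ) × W) × (Z × ℕ × (Fin n → ℕ)),
      Wf = fun v => ((cz (zx (x v.2)), cd (zx (x v.2))),
        (zx (x v.1), L - bb (zx (x v.1)) (x v.2),
          fun i => bas pos (x v.2) i / 2 ^ (L - bb (zx (x v.1)) (x v.2)))) := ⟨_, rfl⟩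
  rw [← hWf]
  refine (CH_le_card hq.nonneg hq.sum_one (fun v => bas pos (x v.2)) Wf
    (fun w => (univ.filter (fun v => 0 < q v ∧ Wf v = w)).image (fun v => bas pos (x v.2)))
    fun v hv0 => ?_).trans ?_
  · exact Finset.mem_image_of_mem (fun v : Ω × Ω => bas pos (x v.2))
      (Finset.mem_filter.2 ⟨Finset.mem_univ _, hv0, rfl⟩)
  have hRHS : Ex q (fun v => n * ((L - bb (zx (x v.1)) (x v.2) : ℕ) * Real.log 2)) -
      ((pp - ep) * Real.log 2 - C3) = Ex q (fun v =>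
        n * ((L - bb (zx (x v.1)) (x v.2) : ℕ) * Real.log 2) -
        ((pp - ep) * Real.log 2 - C3)) := by
    rw [Ex_sub, Ex_const hq.sum_one]
  rw [hRHS]
  refine Ex_mono hq.nonneg fun v₀ hv₀ => ?_
  obtain ⟨hbL, hbp, hFt, hM0, hA0, hB0⟩ := hv v₀ hv₀
  obtain ⟨b, hb⟩ : ∃ b, b = bb (zx (x v₀.1)) (x v₀.2) := ⟨_, rfl⟩
  rw [← hb] at hbL hbp hFt hM0 hA0 hB0 ⊢
  obtain ⟨Pz, hPz⟩ : ∃ Pz, Pz = lfp a cz (Q (zx (x v₀.1))) (zx (x v₀.2)) := ⟨_, rfl⟩
  obtain ⟨c, hc⟩ : ∃ c, c = crb b (scb L pos b (x v₀.2)) := ⟨_, rfl⟩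
  obtain ⟨h0, hh0⟩ : ∃ h0, h0 = hpl a cz G Q (zx (x v₀.1)) (zx (x v₀.2)) 0 := ⟨_, rfl⟩
  obtain ⟨M0, hM0e⟩ : ∃ M0, M0 = cs c (1 / 2 ^ b) h0 := ⟨_, rfl⟩
  have hM0' : Mj a L pos zx cz G Q b (zx (x v₀.1)) (x v₀.2) 0 = M0 := by
    rw [hM0e, hh0, hc]
    rfl
  rw [hM0'] at hM0
  have hh0g : h0 = gr (G (zx (x v₀.2))) Pz := by
    rw [hh0, hPz]
    rfl
  have hp₀ := hqp v₀ hv₀
  have hPd : Pz.totalDegree ≤ D := by
    rw [hPz]
    exact JC.lfp_deg (hQ _).2
  have hcub : cube c (1 / 2 ^ b) ⊆ cube (fun _ => 0) 1 := by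
    have k1 := JC.sub_cube (pos := pos) (Nat.zero_le b) hbL (x v₀.2)
    rw [JC.crb_zero, pow_zero, div_one] at k1
    rw [hc]
    exact k1
  have hh0d : h0.totalDegree ≤ (k₀ + 1) * D := by
    rw [hh0]
    exact JC.hpl_deg (hG _ hp₀.2).deg (hQ _).2 0
  have hs0 : (0 : ℝ) ≤ 1 / 2 ^ b := by positivity
  -- members of the class
  have hcls : ∀ v : Ω × Ω, 0 < q v → Wf v = Wf v₀ →
      (∀ i, bas pos (x v.2) i / 2 ^ L = cz (zx (x v₀.2)) (some i)) ∧
      (∀ i, bas pos (x v.2) i / 2 ^ (L - b) = bas pos (x v₀.2) i / 2 ^ (L - b)) ∧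
      |tc b h0 (fun i => ((bas pos (x v.2) i % 2 ^ L : ℕ) : ℝ) / 2 ^ L) β'| ≤
        (1 + CD + CT * CD) * M0 / 2 ^ pp ∧
      M0 / (4 * 2 ^ ep) ≤ |tc b h0 (fun i => ((bas pos (x v.2) i % 2 ^ L : ℕ) : ℝ) / 2 ^ L)
        (β' + Finsupp.single k 1)| := by
    intro v hvp hvW
    obtain ⟨hbL', _, _, _, hA', hB'⟩ := hv v hvp
    have hp' := hqp v hvp
    rw [hWf] at hvW
    simp only [Prod.mk.injEq] at hvW
    obtain ⟨⟨hcz, hcdd⟩, hz1, htt, hcell⟩ := hvW
    have hbb : bb (zx (x v.1)) (x v.2) = b := by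
      rw [← hb] at htt
      omega
    rw [hbb] at hA' hB' hcell
    rw [← hb] at hcell
    have hcell' : ∀ i, bas pos (x v.2) i / 2 ^ (L - b) = bas pos (x v₀.2) i / 2 ^ (L - b) :=
      fun i => congrFun hcell i
    have hL : ∀ o, pos (x v.2) o / 2 ^ L = pos (x v₀.2) o / 2 ^ L := by
      intro o
      rw [hF.cell, hF.cell, hcz]
    have hscb : scb L pos b (x v.2) = scb L pos b (x v₀.2) := by
      funext i
      have k1 : (2 : ℕ) ^ L = 2 ^ (L - b) * 2 ^ b := by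
        rw [← pow_add, Nat.sub_add_cancel hbL]
      have k2 := hcell' i
      unfold bas at k2
      unfold scb posS
      rw [k1, Nat.mod_mul_right_div_self, Nat.mod_mul_right_div_self, k2]
    have hlfp : lfp a cz (Q (zx (x v₀.1))) (zx (x v.2)) = Pz := by
      rw [hPz]
      unfold lfp crz
      rw [hcz]
    have hhv : hpl a cz G Q (zx (x v.1)) (zx (x v.2)) 0 = gr (G (zx (x v.2))) Pz := by
      rw [← hlfp, hz1]
      rfl
    have hMv : Mj a L pos zx cz G Q b (zx (x v.1)) (x v.2) 0 =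
        cs c (1 / 2 ^ b) (gr (G (zx (x v.2))) Pz) := by
      unfold Mj
      rw [hscb, ← hc, hhv]
    rw [hhv, hMv] at hA' hB'
    have hGG := hcd v.2 v₀.2 hp'.2 hp₀.2 hL hcdd
    have hdif := hD Pz (G (zx (x v.2))) (G (zx (x v₀.2))) c (1 / 2 ^ b) R' pp P₀ hPd hs0 hcub
      hRP hGG (by
        intro j hj1 hj2
        have k1 := hFt j hj1 hj2
        have k2 : ∀ j, Mj a L pos zx cz G Q b (zx (x v₀.1)) (x v₀.2) j =
            cs c (1 / 2 ^ b) (gr (G (zx (x v₀.2))) (dN j Pz)) := by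
          intro j
          unfold Mj hpl
          rw [← hc, ← hPz]
        rw [k2, k2] at k1
        exact k1)
    rw [← hh0g] at hdif
    rw [← hM0e] at hdif
    have hymem : yb L pos (x v.2) ∈ cube (crb b (scb L pos b (x v.2))) (1 / 2 ^ b) :=
      JC.yb_mem hbL _
    have hyb : yb L pos (x v.2) = fun i => ((bas pos (x v.2) i % 2 ^ L : ℕ) : ℝ) / 2 ^ L := by
      funext i
      rw [JC.yb_apply]
      rfl
    have hdeg : (gr (G (zx (x v.2))) Pz - h0).totalDegree ≤ (k₀ + 1) * D := by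
      refine (MvPolynomial.totalDegree_sub _ _).trans (max_le ?_ hh0d)
      exact SML.totalDegree_gr_le _ k₀ D (hG _ hp'.2).deg _ hPd
    have hT1 := fun β => hT (gr (G (zx (x v.2))) Pz - h0) (yb L pos (x v.2)) b
      (scb L pos b (x v.2)) β hdeg hymem
    rw [hscb, ← hc] at hT1
    have hres := C5.near_graph (CD := CD) (CT := CT) (M0 := M0)
      (Mv := cs c (1 / 2 ^ b) (gr (G (zx (x v.2))) Pz))
      (t1 := tc b (gr (G (zx (x v.2))) Pz) (yb L pos (x v.2)) β')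
      (t2 := tc b (gr (G (zx (x v.2))) Pz) (yb L pos (x v.2)) (β' + Finsupp.single k 1))
      (t1' := tc b h0 (yb L pos (x v.2)) β')
      (t2' := tc b h0 (yb L pos (x v.2)) (β' + Finsupp.single k 1))
      (d1 := tc b (gr (G (zx (x v.2))) Pz - h0) (yb L pos (x v.2)) β')
      (d2 := tc b (gr (G (zx (x v.2))) Pz - h0) (yb L pos (x v.2)) (β' + Finsupp.single k 1))
      (dd := cs c (1 / 2 ^ b) (gr (G (zx (x v.2))) Pz - h0)) (pp := pp) (ep := ep)
      hCD hCT hM0 ((mul_le_mul_of_nonneg_right hC3a (by positivity)).trans hpe)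
      (SML.cs_nonneg _ _ _) hdif (by rw [hM0e]; exact C5.cs_tri hs0 _ _)
      (by rw [hM0e]; exact C5.cs_symm hs0 _ _) hA' hB' (C5.tc_sub _ _ _ _ _)
      (C5.tc_sub _ _ _ _ _) (hT1 _) (hT1 _)
    rw [hyb] at hres
    exact ⟨fun i => by rw [← hF.cell, ← hL]; rfl, hcell', hres.1, hres.2⟩
  -- the count
  obtain ⟨A1, hA1⟩ : ∃ A1, A1 = (1 + CD + CT * CD) * M0 / 2 ^ pp := ⟨_, rfl⟩
  obtain ⟨B1, hB1⟩ : ∃ B1, B1 = M0 / (4 * 2 ^ ep) := ⟨_, rfl⟩
  rw [← hA1, ← hB1] at hcls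
  have hA1p : 0 ≤ A1 := by rw [hA1]; positivity
  have hB1p : 0 < B1 := by rw [hB1]; positivity
  obtain ⟨K, hKe⟩ : ∃ K, K = C3 * (2 ^ (L - b) * 2 ^ ep / 2 ^ pp) := ⟨_, rfl⟩
  have hone : (1 : ℝ) ≤ 2 ^ (L - b) * 2 ^ ep / 2 ^ pp := by
    rw [le_div_iff₀ (by positivity), one_mul, ← pow_add]
    exact pow_le_pow_right₀ (by norm_num) (by omega)
  have hKb : CS * (A1 / B1 * 2 ^ (L - b) + 1) ≤ K := by
    have k1 : A1 / B1 * 2 ^ (L - b) =
        4 * (1 + CD + CT * CD) * (2 ^ (L - b) * 2 ^ ep / 2 ^ pp) := by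
      rw [hA1, hB1]
      field_simp
    rw [k1, hKe, hC3]
    have k2 : 4 * (1 + CD + CT * CD) * (2 ^ (L - b) * 2 ^ ep / 2 ^ pp) + 1 ≤
        (4 * (1 + CD + CT * CD) + 1) * (2 ^ (L - b) * 2 ^ ep / 2 ^ pp) := by
      linarith only [hone]
    calc CS * (4 * (1 + CD + CT * CD) * (2 ^ (L - b) * 2 ^ ep / 2 ^ pp) + 1) ≤
        CS * ((4 * (1 + CD + CT * CD) + 1) * (2 ^ (L - b) * 2 ^ ep / 2 ^ pp)) :=
          mul_le_mul_of_nonneg_left k2 (by linarith only [hCS])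
      _ = _ := by ring
  have hK0 : 0 ≤ K := by rw [hKe]; positivity
  have hcard := C5.count_lines (L := L) (b := b) k
    ((univ.filter (fun v => 0 < q v ∧ Wf v = Wf v₀)).image (fun v => bas pos (x v.2)))
    (fun i => bas pos (x v₀.2) i / 2 ^ (L - b)) (fun i => cz (zx (x v₀.2)) (some i))
    (fun u => |tc b h0 (fun i => (u i : ℝ) / 2 ^ L) β'| ≤ A1 ∧
      B1 ≤ |tc b h0 (fun i => (u i : ℝ) / 2 ^ L) (β' + Finsupp.single k 1)|) hK0
    (by
      intro u hu
      obtain ⟨v, hv', rfl⟩ := Finset.mem_image.1 hu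
      have h1 := (Finset.mem_filter.1 hv').2
      exact (hcls v h1.1 h1.2).1 k)
    (by
      intro u hu i
      obtain ⟨v, hv', rfl⟩ := Finset.mem_image.1 hu
      have h1 := (Finset.mem_filter.1 hv').2
      exact (hcls v h1.1 h1.2).2.1 i)
    (by
      intro u hu
      obtain ⟨v, hv', rfl⟩ := Finset.mem_image.1 hu
      have h1 := (Finset.mem_filter.1 hv').2
      exact (hcls v h1.1 h1.2).2.2)
    (by
      intro w E hE
      exact (hS h0 L b β' k A1 B1 w E hh0d hbL hA1p hB1p hE).trans hKb)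
  have hmem₀ : bas pos (x v₀.2) ∈
      (univ.filter (fun v => 0 < q v ∧ Wf v = Wf v₀)).image (fun v => bas pos (x v.2)) :=
    Finset.mem_image_of_mem (fun v : Ω × Ω => bas pos (x v.2))
      (Finset.mem_filter.2 ⟨Finset.mem_univ _, hv₀, rfl⟩)
  have hcpos : (0 : ℝ) < ((univ.filter (fun v => 0 < q v ∧ Wf v = Wf v₀)).image
      (fun v => bas pos (x v.2))).card := by
    exact_mod_cast Finset.card_pos.2 ⟨_, hmem₀⟩
  have hn1 : 1 ≤ n := Nat.one_le_iff_ne_zero.2 fun h => by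
    subst h
    exact k.elim0
  refine (Real.log_le_log hcpos hcard).trans ?_
  have hlK : Real.log (K * (2 ^ (L - b)) ^ (n - 1)) =
      Real.log C3 + n * ((L - b : ℕ) * Real.log 2) - (pp - ep) * Real.log 2 := by
    have hC3p : 0 < C3 := by linarith only [hCC, hC3a]
    rw [hKe, Real.log_mul (by positivity) (by positivity), Real.log_mul hC3p.ne' (by positivity),
      Real.log_div (by positivity) (by positivity), Real.log_mul (by positivity) (by positivity),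
      Real.log_pow, Real.log_pow, Real.log_pow, Real.log_pow, Real.log_pow, Nat.cast_sub hn1]
    push_cast
    ring
  rw [hlK]
  have hlC : Real.log C3 ≤ C3 := by
    have := Real.log_le_sub_one_of_pos (x := C3) (by linarith only [hCC, hC3a])
    linarith only [this]
  linarith only [hlC]

end Pool.KJ
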