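import Pool.Agent.H4.KJ.J1A
import Pool.Agent.H82.KSP.STEP

/-!
# LEMMA J, row J1: the second point is full given the first label, on events and in cells

`K_JUMP_helper79.md`, (F1)-(F3), in the setting of the macro step. `j1_full` is (F1); `j1_thm` is
(F3) for an event `B` of pairs and the cell of the second point of size `2 ^ (b v)`, where `b` is
any function of the pair.
-/

set_option autoImplicit false

namespace Pool.KJ

open Finset Real
open Pool.Agent.H49.Ent Pool.Agent.H32.Dense Pool.STK Pool.KAF Pool.KAL Pool.KST Pool.KS3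

/-- **(F1)**: the second point is at least as full given the first label as the point of the leaf
given its own label. -/
theorem j1_full {Ω Λ Ξ Z : Type} [Fintype Ω] {p : Ω → ℝ} (hp : IsLaw p) (lam : Ω → Λ) (x : Ω → Ξ)
    (zx : Ξ → Z) : CH p x (fun ω => zx (x ω)) ≤
      CH (dbl p lam) (fun v => x v.2) (fun v => zx (x v.1)) := by
  have hp0 := hp.nonneg
  have hq0 : ∀ v, 0 ≤ dbl p lam v := dbl_nonneg hp0
  have m1 : Marg (dbl p lam) p (fun v => v.1) := dbl_fst hp0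
  have m2 : Marg (dbl p lam) p (fun v => v.2) := dbl_snd hp0
  have a2 : H (dbl p lam) (fun v => x v.2) = H p x := m2.H x
  have a3 : H (dbl p lam) (fun v => zx (x v.1)) = H p (fun ω => zx (x ω)) :=
    m1.H (fun ω => zx (x ω))
  have a4 : H p (fun ω => (x ω, zx (x ω))) = H p x := by
    refine H_congr hp0 ?_ ?_
    · intro ω ω' _ _ h
      have h1 : x ω = x ω' := h
      simp only [h1]
    · intro ω ω' _ _ h
      exact (Prod.ext_iff.mp h).1
  have a5 : H (dbl p lam) (fun v => x v.2) ≤ H (dbl p lam) (fun v => (x v.2, zx (x v.1))) :=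
    H_mono hq0 fun v v' _ _ h => (Prod.ext_iff.mp h).1
  unfold CH
  rw [a4, a3]
  linarith

open Classical in
/-- **(F3)**. -/
theorem j1_thm (n D : ℕ) (C₀ : ℝ) (hC₀ : 1 ≤ C₀) (k₀ : ℕ) : ∃ C : ℝ, 1 ≤ C ∧
    ∀ (a L : ℕ) (Ω Λ Ξ Z : Type) [Fintype Ω] (p : Ω → ℝ) (lam : Ω → Λ)
      (x : Ω → Ξ) (T : Ξ → ℕ) (pos : Ξ → Option (Fin n) → ℕ) (A B : Λ → Option (Fin n) → ℝ)
      (zx : Ξ → Z) (zl : Λ → ℕ → Z) (cz : Z → Option (Fin n) → ℕ)
      (G : Z → MvPolynomial (Fin n) ℝ) (κ γ N : ℕ) (δ ε e₁ e₃ e₅ eT lm : ℝ) (e : Ξ → ℝ)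
      (b : Ω × Ω → ℕ) (E : Ω × Ω → Prop),
      StepH n a L C₀ k₀ κ γ N δ ε e₁ e₃ p lam x T pos A B zx zl cz G e →
      (∀ ω, 0 < p ω → ¬ Bad (G (zx (x ω))) (fun _ => 0) 1 D lm) →
      6 * C₀ / 2 ^ L ≤ lm → lm ≤ 1 →
      (a + L) * Real.log 2 - CH p (fun ω => T (x ω)) lam ≤ eT →
      CH p x (fun ω => pos (x ω)) ≤ e₅ →
      (∀ v, b v ≤ a + L) →
      (∑ v, if E v then dbl p lam v * (n * (b v * Real.log 2)) else 0) -
          ((n + 4 * D) * (a * Real.log 2) + 3 * Real.log ((a + L : ℕ) + 2) +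
            Real.log (lm * 2 ^ L) + 2 * D * eT + e₅ + C * RR n L κ γ N ε e₁ e₃) ≤
        law (dbl p lam) E True * CH (cond (dbl p lam) E True) (fun v => x v.2)
          (fun v => (zx (x v.1), b v, fun i => bas pos (x v.2) i / 2 ^ b v)) := by
  obtain ⟨Cc, hCc, hcnt⟩ := cnt n D C₀ hC₀ k₀
  have h3C : (1 : ℝ) ≤ 3 * C₀ := by linarith
  obtain ⟨Cu, hCu, hful⟩ := fulh_thm n (3 * C₀) h3C
  have hn0 : (0 : ℝ) ≤ n := Nat.cast_nonneg n
  refine ⟨Cc + Cu + n, by linarith, ?_⟩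
  intro a L Ω Λ Ξ Z _ p lam x T pos A B zx zl cz G κ γ N δ ε e₁ e₃ e₅ eT lm e b E hF hbad hlm
    hlm1 heT he₅ hb
  have hp := hF.step.leaf.isLaw
  have hp0 := hp.nonneg
  set q := dbl p lam with hqdef
  have hq0 : ∀ v, 0 ≤ q v := dbl_nonneg hp0
  have m1 : Marg q p (fun v => v.1) := dbl_fst hp0
  have m2 : Marg q p (fun v => v.2) := dbl_snd hp0
  have hq : IsLaw q := ⟨hq0, by rw [m1.sum]; exact hp.sum_one⟩
  set R : ℝ := RR n L κ γ N ε e₁ e₃ with hR
  obtain ⟨hR0, hR1, hR2⟩ := hF.le_RR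
  rw [← hR] at hR0 hR1 hR2
  have hγ3 : n.factorial * (3 * C₀) ^ n ≤ δ ^ n * 2 ^ γ := by
    refine le_trans ?_ hF.hγ
    have h1 : (0 : ℝ) ≤ n.factorial := Nat.cast_nonneg _
    refine mul_le_mul_of_nonneg_left ?_ h1
    exact pow_le_pow_left₀ (by linarith) (by linarith) _
  -- the count
  have hcn := hcnt a L Ω Λ Ξ Z p lam x T pos A B zx zl cz G κ γ δ ε e₁ eT lm e hF.step hF.reg
    hF.gr hbad hlm hlm1 hF.hδ hF.he hF.hex hF.hnc hγ3 hF.hκ hF.he₁ hF.he₁0 heT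
  -- the fullness
  have hfu := hful Ω (Λ × ℕ) Ξ Z p (lamS lam x T L) x (TS T L) (posS pos L)
    (AS A B zl cz a) (BS B) zx (fun l => zl l.1 l.2) L κ γ δ ε e₁ e (hF.step.small hC₀)
    (fun ω _ => hF.step.lab ω) hF.hδ hF.he hF.hex (NCF_small hF.hnc) hγ3 hF.hκ hF.he₁
  have I3 : n * (L * Real.log 2) - (n * e₁ + Cu * (L / κ + γ + κ + 1 + ε * L)) ≤
      CH p x (fun ω => zx (x ω)) := by
    have h1 : CH p (fun ω => bas (posS pos L) (x ω)) (fun ω => zx (x ω)) ≤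
        CH p x (fun ω => zx (x ω)) := CH_mono_left hp0 (by
      intro ω ω' _ _ h
      have h1 : x ω = x ω' := (Prod.ext_iff.mp h).1
      simp only [h1])
    linarith
  have hF1 := j1_full hp lam x zx
  have he5 : CH q (fun v => x v.2) (fun v => (bas pos (x v.2), pos (x v.2) none)) ≤ e₅ := by
    have c1 : CH q (fun v => x v.2) (fun v => pos (x v.2)) = CH p x (fun ω => pos (x ω)) :=
      m2.CH x (fun ω => pos (x ω))
    rw [← c1] at he₅
    refine le_trans (CH_mono_cond hq0 ?_) he₅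
    intro v v' _ _ h
    simp only [Prod.mk.injEq] at h
    funext o
    cases o with
    | none => exact h.2
    | some i => exact congrFun h.1 i
  have key := j1_abs (n := n) (M := a + L) hq (fun v => x v.2) (fun v => zx (x v.1))
    (fun v => bas pos (x v.2)) (fun v => pos (x v.2) none)
    (fun v i => hF.step.leaf.pos_lt v.2 (some i)) b hb E
    (n * (L * Real.log 2) - (n * e₁ + Cu * (L / κ + γ + κ + 1 + ε * L)))
    (Real.log ((a + L : ℕ) + 2) + Real.log (lm * 2 ^ L) + (4 * D * (a * Real.log 2) + 2 * D * eT) +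
      Cc * (e₁ + L / κ + γ + κ + 1 + ε * L)) e₅ (I3.trans hF1) hcn he5
  have he₁0 := hF.he₁0
  have he₃0 := hF.e₃_nonneg
  have j1 : Cc * (e₁ + L / κ + γ + κ + 1 + ε * L) ≤ Cc * R :=
    mul_le_mul_of_nonneg_left hR0 (by linarith)
  have j2 : Cu * (L / κ + γ + κ + 1 + ε * L) ≤ Cu * R :=
    mul_le_mul_of_nonneg_left (by linarith) hCu
  have j3 : (n : ℝ) * e₁ ≤ n * R := mul_le_mul_of_nonneg_left (by linarith) hn0
  have j4 : (Cc + Cu + n) * R = Cc * R + Cu * R + n * R := by ring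
  have j6 : (n + 4 * D) * (a * Real.log 2) = n * (a * Real.log 2) + 4 * D * (a * Real.log 2) := by
    ring
  have j7 : (n : ℝ) * (((a + L : ℕ) : ℝ) * Real.log 2) =
      n * (a * Real.log 2) + n * (L * Real.log 2) := by
    push_cast
    ring
  have haL : (0 : ℝ) ≤ ((a + L : ℕ) : ℝ) := Nat.cast_nonneg _
  have j8 : Real.log (((a + L : ℕ) : ℝ) + 1) ≤ Real.log (((a + L : ℕ) : ℝ) + 2) :=
    Real.log_le_log (by linarith) (by linarith)
  have j9 : Real.log 2 ≤ Real.log (((a + L : ℕ) : ℝ) + 2) :=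
    Real.log_le_log (by norm_num) (by linarith)
  rw [j7] at key
  refine le_trans ?_ key
  rw [j4, j6]
  linarith

end Pool.KJ
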