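import Pool.Agent.H72.KJ.Defs
import Pool.Agent.H55.KS3.SML

/-!
# LEMMA J, row JC: sub-cubes, suprema, Taylor coefficients, probabilities
-/

set_option autoImplicit false

namespace Pool.KJ

open Finset Real
open Pool.Agent.H49.Ent Pool.Agent.H32.Dense Pool.STK Pool.KAF Pool.KAL Pool.KST Pool.KS3

namespace JC

/-! ### Sub-cubes -/

section cubes

variable {n : ℕ} {Ξ : Type} {pos : Ξ → Option (Fin n) → ℕ}

theorem yb_apply (L : ℕ) (ξ : Ξ) (i : Fin n) :
    yb L pos ξ i = ((pos ξ (some i) % 2 ^ L : ℕ) : ℝ) / 2 ^ L := by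
  unfold yb rp posS
  push_cast
  rfl

theorem scb_zero (L : ℕ) (ξ : Ξ) (i : Fin n) : scb L pos 0 ξ i = 0 := by
  unfold scb posS
  rw [Nat.sub_zero]
  exact Nat.div_eq_of_lt (Nat.mod_lt _ (by positivity))

theorem crb_zero (L : ℕ) (ξ : Ξ) : crb 0 (scb L pos 0 ξ) = fun _ => 0 := by
  funext i
  unfold crb
  rw [scb_zero]
  simp

/-- The point is in the sub-cube. -/
theorem yb_mem {L b : ℕ} (hb : b ≤ L) (ξ : Ξ) :
    yb L pos ξ ∈ cube (crb b (scb L pos b ξ)) (1 / 2 ^ b) := by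
  intro i
  rw [yb_apply]
  unfold crb scb posS
  obtain ⟨d, rfl⟩ := Nat.exists_eq_add_of_le hb
  have hd : b + d - b = d := by omega
  rw [hd]
  obtain ⟨u, hu⟩ : ∃ u, u = pos ξ (some i) % 2 ^ (b + d) := ⟨_, rfl⟩
  rw [← hu]
  have h1 : u / 2 ^ d * 2 ^ d ≤ u := Nat.div_mul_le_self u _
  have h2 : u < (u / 2 ^ d + 1) * 2 ^ d := by
    have := Nat.lt_div_mul_add (a := u) (b := 2 ^ d) (by positivity)
    rw [Nat.add_mul, one_mul]
    exact this
  have h1' : ((u / 2 ^ d : ℕ) : ℝ) * 2 ^ d ≤ u := by exact_mod_cast h1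
  have h2' : (u : ℝ) < (((u / 2 ^ d : ℕ) : ℝ) + 1) * 2 ^ d := by exact_mod_cast h2
  have e1 : ((u / 2 ^ d : ℕ) : ℝ) / 2 ^ b = ((u / 2 ^ d : ℕ) : ℝ) * 2 ^ d / 2 ^ (b + d) := by
    rw [pow_add]
    field_simp
  have e2 : ((u / 2 ^ d : ℕ) : ℝ) / 2 ^ b + 1 / 2 ^ b =
      (((u / 2 ^ d : ℕ) : ℝ) + 1) * 2 ^ d / 2 ^ (b + d) := by
    rw [pow_add]
    field_simp
  constructor
  · rw [e1]
    exact div_le_div_of_nonneg_right h1' (by positivity)
  · rw [e2]
    exact div_le_div_of_nonneg_right h2'.le (by positivity)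

/-- The sub-cubes are nested. -/
theorem sub_cube {L b b' : ℕ} (hbb : b ≤ b') (hb : b' ≤ L) (ξ : Ξ) :
    cube (crb b' (scb L pos b' ξ)) (1 / 2 ^ b') ⊆ cube (crb b (scb L pos b ξ)) (1 / 2 ^ b) := by
  intro y hy i
  have h := hy i
  obtain ⟨d, rfl⟩ := Nat.exists_eq_add_of_le hbb
  obtain ⟨e, rfl⟩ := Nat.exists_eq_add_of_le hb
  unfold crb scb posS at h ⊢
  have hd1 : b + d + e - (b + d) = e := by omega
  have hd2 : b + d + e - b = e + d := by omega
  rw [hd1] at h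
  rw [hd2]
  obtain ⟨u, hu⟩ : ∃ u, u = pos ξ (some i) % 2 ^ (b + d + e) := ⟨_, rfl⟩
  rw [← hu] at h ⊢
  obtain ⟨w, hw⟩ : ∃ w, w = u / 2 ^ e := ⟨_, rfl⟩
  have e0 : u / 2 ^ (e + d) = w / 2 ^ d := by rw [hw, pow_add, Nat.div_div_eq_div_mul]
  rw [← hw] at h
  rw [e0]
  have h1 : w / 2 ^ d * 2 ^ d ≤ w := Nat.div_mul_le_self w _
  have h2 : w + 1 ≤ (w / 2 ^ d + 1) * 2 ^ d := by
    have := Nat.lt_div_mul_add (a := w) (b := 2 ^ d) (by positivity)
    rw [Nat.add_mul, one_mul]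
    exact this
  have h1' : ((w / 2 ^ d : ℕ) : ℝ) * 2 ^ d ≤ w := by exact_mod_cast h1
  have h2' : (w : ℝ) + 1 ≤ (((w / 2 ^ d : ℕ) : ℝ) + 1) * 2 ^ d := by exact_mod_cast h2
  have e1 : ((w / 2 ^ d : ℕ) : ℝ) / 2 ^ b = ((w / 2 ^ d : ℕ) : ℝ) * 2 ^ d / 2 ^ (b + d) := by
    rw [pow_add]
    field_simp
  have e2 : ((w / 2 ^ d : ℕ) : ℝ) / 2 ^ b + 1 / 2 ^ b =
      (((w / 2 ^ d : ℕ) : ℝ) + 1) * 2 ^ d / 2 ^ (b + d) := by
    rw [pow_add]
    field_simp
  have e3 : (w : ℝ) / 2 ^ (b + d) + 1 / 2 ^ (b + d) = (w + 1) / 2 ^ (b + d) := by ring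
  rw [e3] at h
  constructor
  · rw [e1]
    exact (div_le_div_of_nonneg_right h1' (by positivity)).trans h.1
  · rw [e2]
    exact h.2.trans (div_le_div_of_nonneg_right h2' (by positivity))

end cubes

/-! ### Suprema -/

section sup

variable {n : ℕ}

theorem cs_mono_cube {c c' : Fin n → ℝ} {s s' : ℝ} (hs : 0 ≤ s)
    (h : cube c' s' ⊆ cube c s) (P : MvPolynomial (Fin n) ℝ) : cs c' s' P ≤ cs c s P :=
  SML.cs_le P (SML.cs_nonneg _ _ _) fun _ hy => SML.le_cs hs P (h hy)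

/-- The degree on the graph. -/
theorem hpl_deg {Z : Type} {a D k₀ : ℕ} {cz : Z → Option (Fin n) → ℕ}
    {G : Z → MvPolynomial (Fin n) ℝ} {Q : Z → MvPolynomial (Option (Fin n)) ℝ} {ζ₁ ζ₂ : Z}
    (hG : (G ζ₂).totalDegree ≤ k₀) (hQ : (Q ζ₁).totalDegree ≤ D) (j : ℕ) :
    (hpl a cz G Q ζ₁ ζ₂ j).totalDegree ≤ (k₀ + 1) * D := by
  unfold hpl gr
  refine (SML.totalDegree_bind_le _ (k₀ + 1) ?_ _).trans ?_
  · intro o
    cases o with
    | none => exact hG.trans (Nat.le_succ _)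
    | some i =>
      show (MvPolynomial.X i : MvPolynomial (Fin n) ℝ).totalDegree ≤ k₀ + 1
      rw [MvPolynomial.totalDegree_X]
      omega
  · refine Nat.mul_le_mul_left _ ?_
    refine (totalDegree_dN_le _ _).trans ?_
    unfold lfp
    exact (totalDegree_shf_le _ _ _).trans hQ

theorem lfp_deg {Z : Type} {a D : ℕ} {cz : Z → Option (Fin n) → ℕ}
    {P : MvPolynomial (Option (Fin n)) ℝ} {ζ : Z} (hQ : P.totalDegree ≤ D) :
    (lfp a cz P ζ).totalDegree ≤ D := by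
  unfold lfp
  exact (totalDegree_shf_le _ _ _).trans hQ

/-- The change of units is injective. -/
theorem lfp_ne {Z : Type} {a : ℕ} {cz : Z → Option (Fin n) → ℕ}
    {P : MvPolynomial (Option (Fin n)) ℝ} {ζ : Z} (hP : P ≠ 0) : lfp a cz P ζ ≠ 0 := by
  intro h
  apply hP
  have h2 : (2 : ℝ) ^ a ≠ 0 := by positivity
  have h1 : shf (lfp a cz P ζ) (2 ^ a) (fun o => - (2 ^ a * crz cz a ζ o)) = P := by
    unfold lfp
    rw [shf_shf]
    have e1 : (1 : ℝ) / 2 ^ a * 2 ^ a = 1 := by field_simp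
    have e2 : (fun i => crz cz a ζ i + 1 / 2 ^ a * -(2 ^ a * crz cz a ζ i)) = fun _ => (0 : ℝ) := by
      funext i
      field_simp
      ring
    rw [e1, e2, shf_zero_one]
  rw [← h1, h]
  unfold shf
  rw [map_zero]

end sup

/-! ### Taylor coefficients -/

section taylor

variable {n : ℕ}

theorem tc_zero (b : ℕ) (h : MvPolynomial (Fin n) ℝ) (y : Fin n → ℝ) :
    tc b h y 0 = MvPolynomial.eval y h := by
  unfold tc
  have h1 := eval_shA h (fun _ => (1 : ℝ) / 2 ^ b) y (fun _ => 0)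
  have h2 : (fun i : Fin n => y i + 1 / 2 ^ b * 0) = y := by
    funext i
    ring
  rw [h2] at h1
  have h3 : (fun _ : Fin n => (0 : ℝ)) = 0 := rfl
  rw [h3] at h1
  rw [← h1, ← MvPolynomial.constantCoeff_eq]
  obtain ⟨P, hP⟩ : ∃ P, P = shA h (fun _ => (1 : ℝ) / 2 ^ b) y := ⟨_, rfl⟩
  rw [← hP]
  simp

/-- Taylor coefficients in another unit. -/
theorem tc_scale {b L : ℕ} (hb : b ≤ L) (h : MvPolynomial (Fin n) ℝ) (y : Fin n → ℝ)
    (β : Fin n →₀ ℕ) : tc b h y β = 2 ^ ((L - b) * β.degree) * tc L h y β := by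
  unfold tc
  obtain ⟨d, rfl⟩ := Nat.exists_eq_add_of_le hb
  have hd : b + d - b = d := by omega
  rw [hd]
  have e1 : shA h (fun _ => (1 : ℝ) / 2 ^ (b + d)) y =
      shA (shA h (fun _ => (1 : ℝ) / 2 ^ b) y) (fun _ => (1 : ℝ) / 2 ^ d) (fun _ => 0) := by
    rw [shA_shA]
    have e2 : (fun _ : Fin n => (1 : ℝ) / 2 ^ b * (1 / 2 ^ d)) =
        fun _ => (1 : ℝ) / 2 ^ (b + d) := by
      funext i
      rw [pow_add]
      field_simp
    have e3 : (fun i : Fin n => y i + 1 / 2 ^ b * 0) = y := by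
      funext i
      ring
    rw [e2, e3]
  rw [e1, coeff_shA_zero]
  have e4 : wgt (fun _ : Fin n => (1 : ℝ) / 2 ^ d) β = (1 / 2 ^ d) ^ β.degree := by
    unfold wgt Finsupp.prod
    simp only []
    rw [Finset.prod_pow_eq_pow_sum]
    rfl
  have e5 : ((1 : ℝ) / 2 ^ d) ^ β.degree = ((2 ^ d) ^ β.degree)⁻¹ := by
    rw [one_div, inv_pow]
  rw [e4, pow_mul, e5, ← mul_assoc, mul_inv_cancel₀ (by positivity), one_mul]

end taylor

/-! ### Probabilities -/

section prob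

variable {Ω : Type} [Fintype Ω] {p : Ω → ℝ}

theorem Pe_mono (hp : ∀ ω, 0 ≤ p ω) {A B : Ω → Prop} (h : ∀ ω, 0 < p ω → A ω → B ω) :
    Pe p A ≤ Pe p B := by
  classical
  unfold Pe
  refine Finset.sum_le_sum fun ω _ => ?_
  by_cases hA : A ω
  · rw [if_pos hA]
    rcases (hp ω).lt_or_eq with h0 | h0
    · rw [if_pos (h ω h0 hA)]
    · rw [← h0]
      split_ifs <;> exact le_rfl
  · rw [if_neg hA]
    split_ifs
    exacts [hp ω, le_rfl]

theorem Pe_le_add (hp : ∀ ω, 0 ≤ p ω) {A B C : Ω → Prop} (h : ∀ ω, 0 < p ω → A ω → B ω ∨ C ω) :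
    Pe p A ≤ Pe p B + Pe p C := by
  classical
  unfold Pe
  rw [← Finset.sum_add_distrib]
  refine Finset.sum_le_sum fun ω _ => ?_
  by_cases hA : A ω
  · rw [if_pos hA]
    rcases (hp ω).lt_or_eq with h0 | h0
    · rcases h ω h0 hA with h1 | h1
      · rw [if_pos h1]
        split_ifs
        · linarith
        · linarith
      · rw [if_pos h1]
        split_ifs
        · linarith
        · linarith
    · rw [← h0]
      split_ifs <;> simp
  · rw [if_neg hA]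
    have := hp ω
    split_ifs <;> linarith

/-- Pigeonhole. -/
theorem Pe_pigeon (hp : ∀ ω, 0 ≤ p ω) {ι : Type} (T : Finset ι) (hT : T.Nonempty)
    {A : Ω → Prop} (B : ι → Ω → Prop) (h : ∀ ω, 0 < p ω → A ω → ∃ t ∈ T, B t ω) :
    ∃ t ∈ T, Pe p A / T.card ≤ Pe p (B t) := by
  classical
  by_contra hcon
  push Not at hcon
  have hcard : (0 : ℝ) < T.card := by exact_mod_cast hT.card_pos
  have h1 : Pe p A ≤ ∑ t ∈ T, Pe p (B t) := by
    unfold Pe
    rw [Finset.sum_comm]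
    refine Finset.sum_le_sum fun ω _ => ?_
    by_cases hA : A ω
    · rw [if_pos hA]
      rcases (hp ω).lt_or_eq with h0 | h0
      · obtain ⟨t, ht, hB⟩ := h ω h0 hA
        have h2 := Finset.single_le_sum (f := fun t => if B t ω then p ω else 0)
          (fun t _ => by split_ifs; exacts [hp ω, le_rfl]) ht
        simp only [if_pos hB] at h2
        exact h2
      · rw [← h0]
        exact Finset.sum_nonneg fun t _ => by split_ifs <;> exact le_rfl
    · rw [if_neg hA]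
      exact Finset.sum_nonneg fun t _ => by split_ifs; exacts [hp ω, le_rfl]
  have h3 : (∑ t ∈ T, Pe p (B t)) < ∑ _t ∈ T, Pe p A / T.card :=
    Finset.sum_lt_sum_of_nonempty hT fun t ht => hcon t ht
  rw [Finset.sum_const, nsmul_eq_mul] at h3
  have h4 : (T.card : ℝ) * (Pe p A / T.card) = Pe p A := by field_simp
  linarith

/-- The probability of an event of the second incidence. -/
theorem Pe_snd {Λ : Type} {lam : Ω → Λ} (hp : ∀ ω, 0 ≤ p ω) (A : Ω → Prop) :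
    Pe (dbl p lam) (fun v => A v.2) = Pe p A := by
  classical
  have m2 : Marg (dbl p lam) p (fun v => v.2) := dbl_snd hp
  have h1 := m2.ex (fun ω => if A ω then (1 : ℝ) else 0)
  unfold Ex at h1
  unfold Pe
  have e1 : ∀ v : Ω × Ω, (if A v.2 then dbl p lam v else 0) =
      dbl p lam v * (if A v.2 then (1 : ℝ) else 0) := by
    intro v
    split_ifs <;> ring
  have e2 : ∀ ω : Ω, (if A ω then p ω else 0) = p ω * (if A ω then (1 : ℝ) else 0) := by
    intro ω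
    split_ifs <;> ring
  rw [Finset.sum_congr rfl fun v _ => e1 v, Finset.sum_congr rfl fun ω _ => e2 ω]
  exact h1

theorem Pe_nonneg (hp : ∀ ω, 0 ≤ p ω) (A : Ω → Prop) : 0 ≤ Pe p A := by
  classical
  unfold Pe
  exact Finset.sum_nonneg fun ω _ => by split_ifs; exacts [hp ω, le_rfl]

end prob

end JC

end Pool.KJ
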