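import Pool.Agent.H4.KJ.JCA
import Pool.Agent.H72.KJ.Stmts

/-!
# LEMMA J, row JCE: one pair of leaves

`M b j` is the supremum of `h_j` on the sub-cube of side `2 ^ (-b)`, `t b β` the Taylor coefficient
of `h_0` at the point in the unit `2 ^ (-b)`.
-/

set_option autoImplicit false

namespace Pool.KJ

open Finset Real
open Pool.Agent.H49.Ent Pool.Agent.H32.Dense Pool.STK Pool.KAF Pool.KAL Pool.KST Pool.KS3

namespace JC

open Classical in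
/-- The least mesh scale at which typical points are within `2 ^ (-R)` of the zero set. -/
noncomputable def bbF (D R m : ℕ) (M : ℕ → ℕ → ℝ) : ℕ :=
  if h : ∃ i, Th D R (M (m * i)) then m * Nat.find h else 0

theorem Th_mono {D R R' : ℕ} {M : ℕ → ℝ} (h0 : 0 ≤ M 0) (hR : R ≤ R') (h : Th D R' M) :
    Th D R M := by
  obtain ⟨j, h1, h2, h3⟩ := h
  refine ⟨j, h1, h2, le_trans ?_ h3⟩
  refine mul_le_mul_of_nonneg_right ?_ h0
  exact pow_le_pow_right₀ (by norm_num) (Nat.mul_le_mul_right _ hR)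

theorem M0_pos {D R : ℕ} {M : ℕ → ℝ} (h0 : ∀ j, 0 ≤ M j) (hD : 1 ≤ D) (h : ¬ Th D R M) :
    0 < M 0 := by
  by_contra hc
  push Not at hc
  apply h
  refine ⟨1, le_rfl, hD, ?_⟩
  have h1 : M 0 = 0 := le_antisymm hc (h0 0)
  rw [h1, mul_zero]
  exact h0 1

/-- The comparison of the leaf and of the first mesh cube. -/
theorem first_cube {D L r₂ m : ℕ} {M : ℕ → ℕ → ℝ} {μ₀ : ℝ} (h0 : ∀ b j, 0 ≤ M b j)
    (h1 : ∀ j, M m j ≤ M 0 j) (hnot : ¬ Th D r₂ (M 0)) (hr : r₂ ≤ L)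
    (hNB : ∑ j ∈ range (D + 1), (1 / 2 ^ L) ^ j * M 0 j ≤
      Real.exp μ₀ * ∑ j ∈ range (D + 1), (1 / 2 ^ L) ^ j * M m j)
    (hμ : Real.exp μ₀ * (2 * D) ≤ 2 ^ (L - r₂)) : M 0 0 ≤ 2 * Real.exp μ₀ * M m 0 := by
  have hM0 : 0 ≤ M 0 0 := h0 0 0
  have hE := Real.exp_pos μ₀
  obtain ⟨d, rfl⟩ := Nat.exists_eq_add_of_le hr
  have hd : r₂ + d - r₂ = d := by omega
  rw [hd] at hμ
  have e1 : M 0 0 ≤ ∑ j ∈ range (D + 1), (1 / (2 : ℝ) ^ (r₂ + d)) ^ j * M 0 j := by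
    have := Finset.single_le_sum (f := fun j => (1 / (2 : ℝ) ^ (r₂ + d)) ^ j * M 0 j)
      (fun j _ => mul_nonneg (by positivity) (h0 0 j)) (Finset.mem_range.2 (Nat.succ_pos D))
    simpa using this
  have e2 : ∑ j ∈ range (D + 1), (1 / (2 : ℝ) ^ (r₂ + d)) ^ j * M m j ≤
      M m 0 + D * (1 / 2 ^ d * M 0 0) := by
    rw [Finset.sum_range_succ', pow_zero, one_mul, add_comm]
    refine add_le_add le_rfl ?_
    have e3 : ∀ j ∈ range D, (1 / (2 : ℝ) ^ (r₂ + d)) ^ (j + 1) * M m (j + 1) ≤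
        1 / 2 ^ d * M 0 0 := by
      intro j hj
      have hj' : j + 1 ≤ D := Finset.mem_range.1 hj
      have e4 : M 0 (j + 1) ≤ 2 ^ (r₂ * (j + 1)) * M 0 0 := by
        by_contra hc
        push Not at hc
        exact hnot ⟨j + 1, by omega, hj', hc.le⟩
      have e5 := (h1 (j + 1)).trans e4
      calc (1 / (2 : ℝ) ^ (r₂ + d)) ^ (j + 1) * M m (j + 1) ≤
          (1 / (2 : ℝ) ^ (r₂ + d)) ^ (j + 1) * (2 ^ (r₂ * (j + 1)) * M 0 0) :=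
            mul_le_mul_of_nonneg_left e5 (by positivity)
        _ = (1 / 2 ^ d) ^ (j + 1) * M 0 0 := by
            have e10 : 1 / (2 : ℝ) ^ (r₂ + d) * 2 ^ r₂ = 1 / 2 ^ d := by
              rw [pow_add]
              field_simp
            rw [pow_mul, ← mul_assoc, ← mul_pow, e10]
        _ ≤ (1 / 2 ^ d) ^ 1 * M 0 0 := by
            refine mul_le_mul_of_nonneg_right ?_ hM0
            refine pow_le_pow_of_le_one (by positivity) ?_ (by omega)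
            rw [div_le_one (by positivity)]
            exact one_le_pow₀ (by norm_num)
        _ = 1 / 2 ^ d * M 0 0 := by rw [pow_one]
    refine (Finset.sum_le_sum e3).trans ?_
    rw [Finset.sum_const, Finset.card_range, nsmul_eq_mul]
  have e6 := e1.trans (hNB.trans (mul_le_mul_of_nonneg_left e2 hE.le))
  have e7 : Real.exp μ₀ * (D * (1 / 2 ^ d * M 0 0)) ≤ 1 / 2 * M 0 0 := by
    have e8 : Real.exp μ₀ * (D * (1 / 2 ^ d * M 0 0)) =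
        (Real.exp μ₀ * (2 * D)) * (1 / 2 * (1 / 2 ^ d)) * M 0 0 := by ring
    rw [e8]
    refine mul_le_mul_of_nonneg_right ?_ hM0
    calc (Real.exp μ₀ * (2 * D)) * (1 / 2 * (1 / 2 ^ d)) ≤
        2 ^ d * (1 / 2 * (1 / 2 ^ d)) := mul_le_mul_of_nonneg_right hμ (by positivity)
      _ = 1 / 2 := by field_simp
  have e9 : Real.exp μ₀ * (M m 0 + D * (1 / 2 ^ d * M 0 0)) =
      Real.exp μ₀ * M m 0 + Real.exp μ₀ * (D * (1 / 2 ^ d * M 0 0)) := by ring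
  rw [e9] at e6
  linarith

/-- **One pair of leaves.** -/
theorem core_det {n D L r₂ m k e₀ cE Kd I w Ic K Mm Λ₀ : ℕ} {M : ℕ → ℕ → ℝ}
    {t : ℕ → (Fin n →₀ ℕ) → ℝ} {μ₀ Cs Ct Cp : ℝ} (hD : 1 ≤ D) (hm : 1 ≤ m) (hmL : m ∣ L)
    (hw : 1 ≤ w) (h0 : ∀ b j, 0 ≤ M b j)
    (h1 : ∀ b b' j, b ≤ b' → b' ≤ L → M b' j ≤ M b j)
    (h2 : ∀ b d, b + d ≤ L → M b 0 ≤ Cs * 2 ^ (Kd * d) * M (b + d) 0)
    (h3 : ∀ β, |t L β| ≤ Ct * M L 0)
    (h4 : ∀ b β, b ≤ L → t b β = 2 ^ ((L - b) * β.degree) * t L β)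
    (h5 : |t L 0| ≤ M L 0)
    (h6 : ∀ b, m ≤ b → b ≤ L → M 0 0 ≤ 2 * Real.exp μ₀ * M m 0 →
      ∃ β : Fin n →₀ ℕ, β.degree ≤ I ∧ M b 0 ≤ Cp * |t b β|)
    (hnot : ¬ Th D r₂ (M 0))
    (hNB : ∑ j ∈ range (D + 1), (1 / 2 ^ L) ^ j * M 0 j ≤
      Real.exp μ₀ * ∑ j ∈ range (D + 1), (1 / 2 ^ L) ^ j * M m j)
    (hdep : ∃ j, 1 ≤ j ∧ j ≤ D ∧ 2 ^ (L * j) * M L 0 ≤ 2 ^ cE * M L j)
    (hJ4 : ∀ (T : (Fin n →₀ ℕ) → ℝ) (H C : ℝ) (P Λ : ℕ), 0 < H → 1 ≤ C →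
      |T 0| ≤ H / 2 ^ Λ → (∃ β : Fin n →₀ ℕ, β.degree ≤ I ∧ H ≤ C * |T β|) →
      P * w ^ (2 * Ic) ≤ Λ → w ^ 2 ∣ P → C < 2 ^ (P / w ^ 2) →
      ∃ (i : ℕ) (β : Fin n →₀ ℕ) (k : Fin n), i ≤ Ic ∧ β.degree < I ∧
        |T β| ≤ H / 2 ^ (P * w ^ (2 * i)) ∧
        H ≤ 2 ^ (P * w ^ (2 * i) / w ^ 2) * |T (β + Finsupp.single k 1)|)
    (hμ : Real.exp μ₀ * (2 * D) ≤ 2 ^ (L - r₂)) (hCs0 : 0 < Cs) (hCs : Cs ≤ 2 ^ m)
    (hCt0 : 0 ≤ Ct) (hCp1 : 1 ≤ Cp) (hCpt : Cp * Ct ≤ 2 ^ e₀) (hCp : Cp < 2 ^ (m * (K * Mm)))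
    (hr : r₂ ≤ m * k) (hL : m * k + (Kd + 1) * m + cE + Λ₀ ≤ L)
    (hΛ : (I + 1) * (m * (w ^ (2 * Ic + 2) * (K * Mm))) + e₀ ≤ Λ₀) :
    m ∣ bbF D (m * k) m M ∧ bbF D (m * k) m M ≤ L ∧ Th D (m * k) (M (bbF D (m * k) m M)) ∧
      Ft D (m * k + (Kd + 1) * m) (M (bbF D (m * k) m M)) ∧ 0 < M (bbF D (m * k) m M) 0 ∧
      ∃ (i : ℕ) (β : Fin n →₀ ℕ) (kk : Fin n), i ≤ Ic ∧ β.degree < I ∧
        bbF D (m * k) m M + m * (w ^ (2 * i + 2) * (K * Mm)) ≤ L ∧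
        |t (bbF D (m * k) m M) β| ≤
          M (bbF D (m * k) m M) 0 / 2 ^ (m * (w ^ (2 * i + 2) * (K * Mm))) ∧
        M (bbF D (m * k) m M) 0 ≤ 2 ^ (m * (w ^ (2 * i + 2) * (K * Mm) / w ^ 2)) *
          |t (bbF D (m * k) m M) (β + Finsupp.single kk 1)| := by
  classical
  obtain ⟨R, hR⟩ : ∃ R, R = m * k := ⟨_, rfl⟩
  rw [← hR] at hr hL ⊢
  obtain ⟨L', hL'⟩ := hmL
  obtain ⟨j₀, hj1, hjD, hj⟩ := hdep
  have h2p : ∀ a : ℕ, (0 : ℝ) < 2 ^ a := fun a => by positivity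
  -- the threshold at the grid
  have hThL : Th D R (M L) := by
    refine ⟨j₀, hj1, hjD, ?_⟩
    have e1 : R * j₀ + cE ≤ L * j₀ := by
      have : (R + cE) * j₀ ≤ L * j₀ := Nat.mul_le_mul_right _ (by omega)
      have h9 : cE * 1 ≤ cE * j₀ := Nat.mul_le_mul_left _ hj1
      rw [Nat.add_mul] at this
      omega
    have e2 : (2 : ℝ) ^ (R * j₀) * 2 ^ cE ≤ 2 ^ (L * j₀) := by
      rw [← pow_add]
      exact pow_le_pow_right₀ (by norm_num) e1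
    have e3 : (2 : ℝ) ^ (R * j₀) * 2 ^ cE * M L 0 ≤ 2 ^ cE * M L j₀ :=
      (mul_le_mul_of_nonneg_right e2 (h0 L 0)).trans hj
    have e4 : (2 : ℝ) ^ (R * j₀) * 2 ^ cE * M L 0 = 2 ^ cE * (2 ^ (R * j₀) * M L 0) := by ring
    rw [e4] at e3
    exact le_of_mul_le_mul_left e3 (h2p cE)
  have hex : ∃ i, Th D R (M (m * i)) := ⟨L', by rw [← hL']; exact hThL⟩
  have hbb : bbF D R m M = m * Nat.find hex := by
    unfold bbF
    rw [dif_pos hex]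
  obtain ⟨i₀, hi₀⟩ : ∃ i₀, i₀ = Nat.find hex := ⟨_, rfl⟩
  have hspec := Nat.find_spec hex
  rw [← hi₀] at hspec hbb
  have hmin : ∀ i < i₀, ¬ Th D R (M (m * i)) := fun i hi => by
    rw [hi₀] at hi
    exact Nat.find_min hex hi
  have hi₀L : i₀ ≤ L' := by
    rw [hi₀]
    exact Nat.find_min' hex (by rw [← hL']; exact hThL)
  have hi₀1 : 1 ≤ i₀ := by
    rcases Nat.eq_zero_or_pos i₀ with h | h
    · exfalso
      rw [h, Nat.mul_zero] at hspec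
      exact hnot (Th_mono (h0 0 0) hr hspec)
    · exact h
  rw [hbb]
  obtain ⟨b, hb⟩ : ∃ b, b = m * i₀ := ⟨_, rfl⟩
  have hbL : b ≤ L := by
    rw [hb, hL']
    exact Nat.mul_le_mul_left _ hi₀L
  have hmb : m ≤ b := by
    rw [hb]
    exact Nat.le_mul_of_pos_right _ hi₀1
  rw [← hb] at hspec ⊢
  -- typical points at a previous scale
  have hFt : Ft D (R + (Kd + 1) * m) (M b) := by
    intro j hj1' hjD'
    have hprev := hmin (i₀ - 1) (by omega)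
    have e0 : m * (i₀ - 1) + m = b := by
      rw [hb]
      obtain ⟨i', rfl⟩ : ∃ i', i₀ = i' + 1 := ⟨i₀ - 1, by omega⟩
      rw [Nat.add_sub_cancel]
      ring
    have e1 : M (m * (i₀ - 1)) j ≤ 2 ^ (R * j) * M (m * (i₀ - 1)) 0 := by
      by_contra hc
      push Not at hc
      exact hprev ⟨j, hj1', hjD', hc.le⟩
    have e2 := h1 (m * (i₀ - 1)) b j (by omega) hbL
    have e3 := h2 (m * (i₀ - 1)) m (by omega)
    rw [e0] at e3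
    have e4 : (2 : ℝ) ^ (R * j) * (Cs * 2 ^ (Kd * m)) ≤ 2 ^ ((R + (Kd + 1) * m) * j) := by
      have e5 : Cs * 2 ^ (Kd * m) ≤ (2 : ℝ) ^ ((Kd + 1) * m) := by
        rw [Nat.add_mul, one_mul, pow_add, mul_comm]
        exact mul_le_mul_of_nonneg_left hCs (h2p _).le
      have e6 : (2 : ℝ) ^ ((Kd + 1) * m) ≤ 2 ^ ((Kd + 1) * m * j) :=
        pow_le_pow_right₀ (by norm_num) (Nat.le_mul_of_pos_right _ hj1')
      rw [Nat.add_mul, pow_add]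
      exact mul_le_mul_of_nonneg_left (e5.trans e6) (h2p _).le
    calc M b j ≤ 2 ^ (R * j) * M (m * (i₀ - 1)) 0 := e2.trans e1
      _ ≤ 2 ^ (R * j) * (Cs * 2 ^ (Kd * m) * M b 0) :=
          mul_le_mul_of_nonneg_left e3 (h2p _).le
      _ = 2 ^ (R * j) * (Cs * 2 ^ (Kd * m)) * M b 0 := by ring
      _ ≤ 2 ^ ((R + (Kd + 1) * m) * j) * M b 0 := mul_le_mul_of_nonneg_right e4 (h0 b 0)
  -- positivity
  have hM00 : 0 < M 0 0 := M0_pos (h0 0) hD hnot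
  have hMb : 0 < M b 0 := by
    have e1 := h2 0 b (by omega)
    rw [Nat.zero_add] at e1
    have e2 : 0 < Cs * 2 ^ (Kd * b) * M b 0 := hM00.trans_le e1
    exact (mul_pos_iff_of_pos_left (by positivity)).1 e2
  -- depth
  have hdepth : M L 0 ≤ M b 0 / 2 ^ Λ₀ := by
    have e1 : M L j₀ ≤ 2 ^ ((R + (Kd + 1) * m) * j₀) * M b 0 :=
      (h1 b L j₀ hbL le_rfl).trans (hFt j₀ hj1 hjD)
    have e2 : 2 ^ (L * j₀) * M L 0 ≤ 2 ^ cE * (2 ^ ((R + (Kd + 1) * m) * j₀) * M b 0) :=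
      hj.trans (mul_le_mul_of_nonneg_left e1 (h2p _).le)
    have e3 : (R + (Kd + 1) * m) * j₀ + cE + Λ₀ ≤ L * j₀ := by
      have h9 : (R + (Kd + 1) * m + (cE + Λ₀)) * j₀ ≤ L * j₀ := Nat.mul_le_mul_right _ (by omega)
      rw [Nat.add_mul] at h9
      have h10 : (cE + Λ₀) * 1 ≤ (cE + Λ₀) * j₀ := Nat.mul_le_mul_left _ hj1
      omega
    have e4 : (2 : ℝ) ^ cE * 2 ^ ((R + (Kd + 1) * m) * j₀) * 2 ^ Λ₀ ≤ 2 ^ (L * j₀) := by
      rw [← pow_add, ← pow_add]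
      exact pow_le_pow_right₀ (by norm_num) (by omega)
    rw [le_div_iff₀ (h2p _)]
    have e5 : 2 ^ (L * j₀) * (M L 0 * 2 ^ Λ₀) ≤ 2 ^ (L * j₀) * M b 0 := by
      calc 2 ^ (L * j₀) * (M L 0 * 2 ^ Λ₀) = 2 ^ (L * j₀) * M L 0 * 2 ^ Λ₀ := by ring
        _ ≤ 2 ^ cE * (2 ^ ((R + (Kd + 1) * m) * j₀) * M b 0) * 2 ^ Λ₀ :=
            mul_le_mul_of_nonneg_right e2 (h2p _).le
        _ = 2 ^ cE * 2 ^ ((R + (Kd + 1) * m) * j₀) * 2 ^ Λ₀ * M b 0 := by ring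
        _ ≤ 2 ^ (L * j₀) * M b 0 := mul_le_mul_of_nonneg_right e4 hMb.le
    exact le_of_mul_le_mul_left e5 (h2p _)
  -- the terms of low order
  have hfirst := first_cube h0 (fun j => h1 0 m j (Nat.zero_le _) (by omega)) hnot (by omega)
    hNB hμ
  obtain ⟨β₀, hβ₀, hβ₁⟩ := h6 b hmb hbL hfirst
  -- the room
  obtain ⟨Λ, hΛdef⟩ : ∃ Λ, Λ = m * (w ^ (2 * Ic + 2) * (K * Mm)) := ⟨_, rfl⟩
  rw [← hΛdef] at hΛ
  have hroom : Λ ≤ L - b := by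
    have e1 : M b 0 ≤ Cp * (2 ^ ((L - b) * I) * (Ct * (M b 0 / 2 ^ Λ₀))) := by
      refine hβ₁.trans ?_
      refine mul_le_mul_of_nonneg_left ?_ (by linarith)
      rw [h4 b β₀ hbL, abs_mul, abs_of_nonneg (h2p _).le]
      refine mul_le_mul ?_ ?_ (abs_nonneg _) (h2p _).le
      · exact pow_le_pow_right₀ (by norm_num) (Nat.mul_le_mul_left _ hβ₀)
      · exact (h3 β₀).trans (mul_le_mul_of_nonneg_left hdepth hCt0)
    have e2 : Cp * (2 ^ ((L - b) * I) * (Ct * (M b 0 / 2 ^ Λ₀))) =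
        (Cp * Ct) * 2 ^ ((L - b) * I) / 2 ^ Λ₀ * M b 0 := by ring
    rw [e2] at e1
    have e3 : 1 ≤ (Cp * Ct) * 2 ^ ((L - b) * I) / 2 ^ Λ₀ := by
      by_contra hc
      push Not at hc
      have := mul_lt_mul_of_pos_right hc hMb
      rw [one_mul] at this
      linarith
    rw [le_div_iff₀ (h2p _), one_mul] at e3
    have e4 : (2 : ℝ) ^ Λ₀ ≤ 2 ^ (e₀ + (L - b) * I) := by
      rw [pow_add]
      exact e3.trans (mul_le_mul_of_nonneg_right hCpt (h2p _).le)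
    have e5 : Λ₀ ≤ e₀ + (L - b) * I := (pow_le_pow_iff_right₀ (by norm_num)).1 e4
    by_contra hc
    push Not at hc
    have e6 : (L - b) * I ≤ Λ * I := Nat.mul_le_mul_right _ hc.le
    have e7 : (I + 1) * Λ = Λ * I + Λ := by ring
    omega
  -- the scale
  obtain ⟨i, β, kk, hi, hβ, hs1, hs2⟩ := hJ4 (t b) (M b 0) Cp (m * (w ^ 2 * (K * Mm))) Λ hMb hCp1
    (by
      rw [h4 b 0 hbL]
      simp only [map_zero, Nat.mul_zero, pow_zero, one_mul]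
      refine h5.trans (hdepth.trans ?_)
      refine div_le_div_of_nonneg_left hMb.le (h2p _) ?_
      refine pow_le_pow_right₀ (by norm_num) ?_
      have e7 : (I + 1) * Λ = Λ * I + Λ := by ring
      omega) ⟨β₀, hβ₀, hβ₁⟩ (by
      rw [hΛdef]
      refine le_of_eq ?_
      rw [pow_add]
      ring) ⟨m * (K * Mm), by ring⟩ (by
      have e8 : m * (w ^ 2 * (K * Mm)) / w ^ 2 = m * (K * Mm) := by
        have : m * (w ^ 2 * (K * Mm)) = m * (K * Mm) * w ^ 2 := by ring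
        rw [this, Nat.mul_div_cancel _ (by positivity)]
      rw [e8]
      exact hCp)
  have hPi : m * (w ^ 2 * (K * Mm)) * w ^ (2 * i) = m * (w ^ (2 * i + 2) * (K * Mm)) := by
    rw [pow_add]
    ring
  have hPw : m * (w ^ (2 * i + 2) * (K * Mm)) / w ^ 2 =
      m * (w ^ (2 * i + 2) * (K * Mm) / w ^ 2) := by
    have e1 : w ^ (2 * i + 2) * (K * Mm) = w ^ (2 * i) * (K * Mm) * w ^ 2 := by
      rw [pow_add]
      ring
    rw [e1, Nat.mul_div_cancel _ (by positivity), ← mul_assoc,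
      Nat.mul_div_cancel _ (by positivity)]
  rw [hPi] at hs1 hs2
  rw [hPw] at hs2
  refine ⟨⟨i₀, hb⟩, hbL, hspec, hFt, hMb, i, β, kk, hi, hβ, ?_, hs1, hs2⟩
  have e9 : m * (w ^ (2 * i + 2) * (K * Mm)) ≤ Λ := by
    rw [hΛdef]
    refine Nat.mul_le_mul_left _ (Nat.mul_le_mul_right _ ?_)
    exact Nat.pow_le_pow_right hw (by omega)
  omega

end JC

end Pool.KJ
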