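import Pool.Agent.H4.KJ.JCB

/-!
# LEMMA J, row JCE: the event
-/

set_option autoImplicit false

namespace Pool.KJ

open Finset Real
open Pool.Agent.H49.Ent Pool.Agent.H32.Dense Pool.STK Pool.KAF Pool.KAL Pool.KST Pool.KS3

namespace JC

/-- The error of the step is small. -/
theorem RR_small1 (n E : ℕ) (hn : 1 ≤ n) (ρ : ℝ) (hρ : 0 < ρ) :
    ∃ (η₁ : ℝ) (κ₀ N₀ m₁ : ℕ), 0 < η₁ ∧ η₁ ≤ ρ ∧ 1 ≤ κ₀ ∧
      ∀ (e₀ L γ : ℕ) (ε e₁ e₃ : ℝ), m₁ ≤ e₀ →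
      L ≤ E * e₀ → e₁ ≤ η₁ * e₀ → e₃ ≤ η₁ * e₀ → γ ≤ η₁ * e₀ → ε ≤ η₁ →
      RR n L κ₀ γ N₀ ε e₁ e₃ ≤ ρ * e₀ := by
  have hE0 : (0 : ℝ) ≤ E := Nat.cast_nonneg E
  have hb0 : (0 : ℝ) ≤ 1 - 1 / n := by
    have h1 : (1 : ℝ) ≤ n := by exact_mod_cast hn
    have h2 : (1 : ℝ) / n ≤ 1 := by
      rw [div_le_one (by linarith)]
      exact h1
    linarith
  have hb1 : (1 : ℝ) - 1 / n < 1 := by
    have h1 : (1 : ℝ) ≤ n := by exact_mod_cast hn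
    have h2 : (0 : ℝ) < 1 / n := by positivity
    linarith
  obtain ⟨N₀, hN₀⟩ := exists_pow_lt_of_lt_one (show 0 < ρ / (8 * (E + 1)) by positivity) hb1
  obtain ⟨κ₀, hκ₀⟩ := exists_nat_gt (8 * E / ρ)
  have hκpos : (0 : ℝ) < κ₀ := lt_of_le_of_lt (by positivity) hκ₀
  obtain ⟨η₁, hη₁⟩ : ∃ η₁, η₁ = min (min 1 ρ) (ρ / (8 * (N₀ + E + 3))) := ⟨_, rfl⟩
  have hη0 : 0 < η₁ := by
    rw [hη₁]
    exact lt_min (lt_min one_pos hρ) (by positivity)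
  have hη1 : η₁ ≤ 1 := by
    rw [hη₁]
    exact (min_le_left _ _).trans (min_le_left _ _)
  have hηρ : η₁ ≤ ρ := by
    rw [hη₁]
    exact (min_le_left _ _).trans (min_le_right _ _)
  have hη2 : η₁ * (N₀ + E + 3) ≤ ρ / 8 := by
    have h1 : η₁ ≤ ρ / (8 * (N₀ + E + 3)) := by
      rw [hη₁]
      exact min_le_right _ _
    have h2 : (0 : ℝ) < 8 * (N₀ + E + 3) := by positivity
    rw [le_div_iff₀ h2] at h1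
    linarith
  obtain ⟨m₁, hm₁⟩ := exists_nat_gt (8 * (N₀ + 1 + κ₀) / ρ)
  refine ⟨η₁, κ₀, N₀, m₁, hη0, hηρ, by exact_mod_cast hκpos, ?_⟩
  intro e₀ L γ ε e₁ e₃ hm hL he₁ he₃ hγ hε
  have he0 : (0 : ℝ) ≤ e₀ := Nat.cast_nonneg e₀
  have hN0 : (0 : ℝ) ≤ N₀ := Nat.cast_nonneg N₀
  have hL0 : (0 : ℝ) ≤ L := Nat.cast_nonneg L
  have hL' : (L : ℝ) ≤ E * e₀ := by exact_mod_cast hL
  have a1 : ((N₀ : ℝ) + 1) * (e₁ + 1) ≤ (N₀ + 1) * (η₁ * e₀) + (N₀ + 1) := by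
    have := mul_le_mul_of_nonneg_left he₁ (by linarith : (0 : ℝ) ≤ N₀ + 1)
    linarith
  have a2 : (1 - 1 / (n : ℝ)) ^ N₀ * (L + e₃) ≤ ρ / 8 * e₀ := by
    have h1 : (L : ℝ) + e₃ ≤ (E + 1) * e₀ := by
      have : η₁ * e₀ ≤ 1 * e₀ := mul_le_mul_of_nonneg_right hη1 he0
      linarith
    have h2 : (0 : ℝ) ≤ (1 - 1 / (n : ℝ)) ^ N₀ := pow_nonneg hb0 _
    calc (1 - 1 / (n : ℝ)) ^ N₀ * (L + e₃) ≤ (1 - 1 / (n : ℝ)) ^ N₀ * ((E + 1) * e₀) :=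
          mul_le_mul_of_nonneg_left h1 h2
      _ ≤ ρ / (8 * (E + 1)) * ((E + 1) * e₀) :=
          mul_le_mul_of_nonneg_right hN₀.le (by positivity)
      _ = ρ / 8 * e₀ := by field_simp
  have a3 : (L : ℝ) / κ₀ ≤ ρ / 8 * e₀ := by
    rw [div_le_iff₀ hκpos]
    have h1 : 8 * E ≤ ρ * κ₀ := by
      have := hκ₀.le
      rw [div_le_iff₀ hρ] at this
      linarith
    have h2 : ρ / 8 * e₀ * κ₀ = (ρ * κ₀) * e₀ / 8 := by ring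
    rw [h2]
    have h3 : 8 * E * (e₀ : ℝ) ≤ ρ * κ₀ * e₀ := mul_le_mul_of_nonneg_right h1 he0
    linarith
  have a4 : ε * L ≤ η₁ * (E * e₀) := by
    calc ε * L ≤ η₁ * L := mul_le_mul_of_nonneg_right hε hL0
      _ ≤ η₁ * (E * e₀) := mul_le_mul_of_nonneg_left hL' hη0.le
  have a5 : (N₀ : ℝ) + 1 + κ₀ ≤ ρ / 8 * e₀ := by
    have h1 : (m₁ : ℝ) ≤ e₀ := by exact_mod_cast hm
    have h2 := hm₁.le
    rw [div_le_iff₀ hρ] at h2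
    have h3 : (m₁ : ℝ) * ρ ≤ e₀ * ρ := mul_le_mul_of_nonneg_right h1 hρ.le
    linarith
  have a6 : η₁ * (N₀ + E + 3) * e₀ ≤ ρ / 8 * e₀ := mul_le_mul_of_nonneg_right hη2 he0
  have a7 : η₁ * (N₀ + E + 3) * e₀ = (N₀ + 1) * (η₁ * e₀) + η₁ * e₀ + η₁ * e₀ +
      η₁ * (E * e₀) := by ring
  have a8 : 0 ≤ ρ * e₀ := by positivity
  unfold RR
  linarith

theorem RR_small (n E : ℕ) (hn : 1 ≤ n) (ρ : ℝ) (hρ : 0 < ρ) :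
    ∃ (η₁ : ℝ) (κ₀ N₀ m₁ : ℕ), 0 < η₁ ∧ η₁ ≤ ρ ∧ ∀ (e₀ L γ : ℕ) (ε e₁ e₃ : ℝ), m₁ ≤ e₀ →
      L ≤ E * e₀ → e₁ ≤ η₁ * e₀ → e₃ ≤ η₁ * e₀ → γ ≤ η₁ * e₀ → ε ≤ η₁ →
      RR n L κ₀ γ N₀ ε e₁ e₃ ≤ ρ * e₀ := by
  obtain ⟨η₁, κ₀, N₀, m₁, h1, h2, -, h3⟩ := RR_small1 n E hn ρ hρ
  exact ⟨η₁, κ₀, N₀, m₁, h1, h2, h3⟩

/-- Real powers of two. -/
theorem le_two_pow_ceil (x : ℝ) : x ≤ 2 ^ ⌈x⌉₊ := by
  have h1 : x ≤ ⌈x⌉₊ := Nat.le_ceil x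
  have h2 : ((⌈x⌉₊ : ℕ) : ℝ) < 2 ^ ⌈x⌉₊ := by exact_mod_cast Nat.lt_two_pow_self
  linarith

theorem lt_two_pow_of {x : ℝ} {a : ℕ} (h : x ≤ a) : x < 2 ^ a := by
  have h2 : ((a : ℕ) : ℝ) < 2 ^ a := by exact_mod_cast Nat.lt_two_pow_self
  linarith

theorem exp_le_two_pow {x : ℝ} {a : ℕ} (h : 2 * x ≤ a) : Real.exp x ≤ 2 ^ a := by
  have hl : (1 / 2 : ℝ) ≤ Real.log 2 := by
    have := Real.log_two_gt_d9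
    linarith
  have h1 : x ≤ a * Real.log 2 := by
    have : (a : ℝ) * (1 / 2) ≤ a * Real.log 2 := mul_le_mul_of_nonneg_left hl (Nat.cast_nonneg a)
    linarith
  calc Real.exp x ≤ Real.exp (a * Real.log 2) := Real.exp_le_exp.2 h1
    _ = 2 ^ a := by
        rw [mul_comm, Real.exp_mul, Real.exp_log (by norm_num), Real.rpow_natCast]

/-- A cube is less bad for larger thickness. -/
theorem not_bad_mono {n : ℕ} {G : MvPolynomial (Fin n) ℝ} {a : Fin n → ℝ} {s : ℝ} {D : ℕ}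
    {lm lm' : ℝ} (h : lm ≤ lm') (hb : ¬ Bad G a s D lm) : ¬ Bad G a s D lm' := by
  intro hc
  apply hb
  intro Q hQ hd
  refine lt_of_le_of_lt ?_ (hc Q hQ hd)
  exact mul_le_mul_of_nonneg_right h (SML.cs_nonneg _ _ _)

/-- The facts for one pair, from the rows. -/
theorem pair_det {n D Kd I w Ic K Mm : ℕ} {Cp Ct Cs : ℝ}
    (hJ3P : ∀ (h : MvPolynomial (Fin n) ℝ) (y : Fin n → ℝ) (b₁ b I : ℕ) (μ : ℝ)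
      (κ₁ κ : Fin n → ℕ), h.totalDegree ≤ Kd → y ∈ cube (fun _ => 0) 1 →
      y ∈ cube (crb b₁ κ₁) (1 / 2 ^ b₁) → y ∈ cube (crb b κ) (1 / 2 ^ b) → b₁ ≤ b →
      cs (fun _ => 0) 1 h ≤ Real.exp μ * cs (crb b₁ κ₁) (1 / 2 ^ b₁) h →
      μ + Cp ≤ I * (b₁ * Real.log 2) →
      ∃ β : Fin n →₀ ℕ, β.degree ≤ I ∧ cs (crb b κ) (1 / 2 ^ b) h ≤ Cp * |tc b h y β|)
    (hTCB : ∀ (h : MvPolynomial (Fin n) ℝ) (y : Fin n → ℝ) (b : ℕ)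
      (κ : Fin n → ℕ) (β : Fin n →₀ ℕ), h.totalDegree ≤ Kd →
      y ∈ cube (crb b κ) (1 / 2 ^ b) → |tc b h y β| ≤ Ct * cs (crb b κ) (1 / 2 ^ b) h)
    (hSUB : ∀ (h : MvPolynomial (Fin n) ℝ) (c c' : Fin n → ℝ) (s : ℝ) (m : ℕ),
      h.totalDegree ≤ Kd → 0 < s → cube c' (s / 2 ^ m) ⊆ cube c s →
      cs c' (s / 2 ^ m) h ≤ cs c s h ∧ cs c s h ≤ Cs * 2 ^ (Kd * m) * cs c' (s / 2 ^ m) h)
    (hJ4 : ∀ (T : (Fin n →₀ ℕ) → ℝ) (H C : ℝ) (P Λ : ℕ), 0 < H → 1 ≤ C →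
      |T 0| ≤ H / 2 ^ Λ → (∃ β : Fin n →₀ ℕ, β.degree ≤ I ∧ H ≤ C * |T β|) →
      P * w ^ (2 * Ic) ≤ Λ → w ^ 2 ∣ P → C < 2 ^ (P / w ^ 2) →
      ∃ (i : ℕ) (β : Fin n →₀ ℕ) (k : Fin n), i ≤ Ic ∧ β.degree < I ∧
        |T β| ≤ H / 2 ^ (P * w ^ (2 * i)) ∧
        H ≤ 2 ^ (P * w ^ (2 * i) / w ^ 2) * |T (β + Finsupp.single k 1)|)
    {a L r₂ m k e₀ cE Λ₀ : ℕ} {Ξ Z : Type} {pos : Ξ → Option (Fin n) → ℕ} {zx : Ξ → Z}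
    {cz : Z → Option (Fin n) → ℕ} {G : Z → MvPolynomial (Fin n) ℝ}
    {Q : Z → MvPolynomial (Option (Fin n)) ℝ} {ζ : Z} {ξ : Ξ} {μ₀ : ℝ}
    (hdeg : ∀ j, (hpl a cz G Q ζ (zx ξ) j).totalDegree ≤ Kd)
    (hm : 1 ≤ m) (hmL : m ∣ L) (hmL' : m ≤ L) (hw : 1 ≤ w)
    (hnot : ¬ Th D r₂ (Mj a L pos zx cz G Q 0 ζ ξ))
    (hNB : NB D L (G (zx ξ)) (lfp a cz (Q ζ) (zx ξ)) (fun _ => 0) 1 ≤
      Real.exp μ₀ * NB D L (G (zx ξ)) (lfp a cz (Q ζ) (zx ξ)) (crb m (scb L pos m ξ)) (1 / 2 ^ m))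
    (hdep : ∃ j, 1 ≤ j ∧ j ≤ D ∧ 2 ^ (L * j) * Mj a L pos zx cz G Q L ζ ξ 0 ≤
      2 ^ cE * Mj a L pos zx cz G Q L ζ ξ j)
    (hμI : μ₀ + Real.log 2 + Cp ≤ I * (m * Real.log 2))
    (hμ : Real.exp μ₀ * (2 * D) ≤ 2 ^ (L - r₂)) (hCs0 : 0 < Cs) (hCs : Cs ≤ 2 ^ m)
    (hCt0 : 0 ≤ Ct) (hCp1 : 1 ≤ Cp) (hCpt : Cp * Ct ≤ 2 ^ e₀) (hCp : Cp < 2 ^ (m * (K * Mm)))
    (hr : r₂ ≤ m * k) (hL : m * k + (Kd + 1) * m + cE + Λ₀ ≤ L)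
    (hΛ : (I + 1) * (m * (w ^ (2 * Ic + 2) * (K * Mm))) + e₀ ≤ Λ₀) :
    ∃ (b : ℕ), b = bbF D (m * k) m (fun b => Mj a L pos zx cz G Q b ζ ξ) ∧
      m ∣ b ∧ b ≤ L ∧ Th D (m * k) (Mj a L pos zx cz G Q b ζ ξ) ∧
      Ft D (m * k + (Kd + 1) * m) (Mj a L pos zx cz G Q b ζ ξ) ∧
      0 < Mj a L pos zx cz G Q b ζ ξ 0 ∧
      ∃ (i : ℕ) (β : Fin n →₀ ℕ) (kk : Fin n), i ≤ Ic ∧ β.degree < I ∧
        b + m * (w ^ (2 * i + 2) * (K * Mm)) ≤ L ∧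
        |tc b (hpl a cz G Q ζ (zx ξ) 0) (yb L pos ξ) β| ≤
          Mj a L pos zx cz G Q b ζ ξ 0 / 2 ^ (m * (w ^ (2 * i + 2) * (K * Mm))) ∧
        Mj a L pos zx cz G Q b ζ ξ 0 ≤ 2 ^ (m * (w ^ (2 * i + 2) * (K * Mm) / w ^ 2)) *
          |tc b (hpl a cz G Q ζ (zx ξ) 0) (yb L pos ξ) (β + Finsupp.single kk 1)| := by
  have hD : 1 ≤ D := by
    obtain ⟨j, h1, h2, -⟩ := hdep
    omega
  have h0 : ∀ b j, 0 ≤ Mj a L pos zx cz G Q b ζ ξ j := fun b j => SML.cs_nonneg _ _ _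
  have hMz : ∀ j, Mj a L pos zx cz G Q 0 ζ ξ j =
      cs (fun _ => 0) 1 (hpl a cz G Q ζ (zx ξ) j) := by
    intro j
    unfold Mj
    rw [crb_zero, pow_zero, div_one]
  have hy0 : yb L pos ξ ∈ cube (fun _ => 0) 1 := by
    have := yb_mem (pos := pos) (Nat.zero_le L) ξ
    rw [crb_zero, pow_zero, div_one] at this
    exact this
  have h1 : ∀ b b' j, b ≤ b' → b' ≤ L →
      Mj a L pos zx cz G Q b' ζ ξ j ≤ Mj a L pos zx cz G Q b ζ ξ j := fun b b' j hb hb' =>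
    cs_mono_cube (by positivity) (sub_cube hb hb' ξ) _
  have h2 : ∀ b d, b + d ≤ L → Mj a L pos zx cz G Q b ζ ξ 0 ≤
      Cs * 2 ^ (Kd * d) * Mj a L pos zx cz G Q (b + d) ζ ξ 0 := by
    intro b d hbd
    have e1 : (1 : ℝ) / 2 ^ b / 2 ^ d = 1 / 2 ^ (b + d) := by
      rw [pow_add, div_div]
    have e2 := hSUB (hpl a cz G Q ζ (zx ξ) 0) (crb b (scb L pos b ξ))
      (crb (b + d) (scb L pos (b + d) ξ)) (1 / 2 ^ b) d (hdeg 0) (by positivity) (by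
      rw [e1]
      exact sub_cube (by omega) hbd ξ)
    rw [e1] at e2
    exact e2.2
  have hmain := core_det (n := n) (D := D) (L := L) (r₂ := r₂) (m := m) (k := k) (e₀ := e₀)
    (cE := cE) (Kd := Kd) (I := I) (w := w) (Ic := Ic) (K := K) (Mm := Mm) (Λ₀ := Λ₀)
    (M := fun b => Mj a L pos zx cz G Q b ζ ξ)
    (t := fun b β => tc b (hpl a cz G Q ζ (zx ξ) 0) (yb L pos ξ) β) (μ₀ := μ₀) (Cs := Cs)
    (Ct := Ct) (Cp := Cp) hD hm hmL hw h0 h1 h2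
    (fun β => hTCB _ _ L _ β (hdeg 0) (yb_mem le_rfl ξ))
    (fun b β hb => tc_scale hb _ _ β)
    (by
      simp only [tc_zero]
      exact SML.le_cs (by positivity) _ (yb_mem le_rfl ξ))
    (by
      intro b hmb hbL hcs
      refine hJ3P (hpl a cz G Q ζ (zx ξ) 0) (yb L pos ξ) m b I (μ₀ + Real.log 2)
        (scb L pos m ξ) (scb L pos b ξ) (hdeg 0) hy0 (yb_mem hmL' ξ) (yb_mem hbL ξ) hmb ?_ hμI
      rw [← hMz, Real.exp_add, Real.exp_log (by norm_num)]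
      have e3 : Real.exp μ₀ * 2 * cs (crb m (scb L pos m ξ)) (1 / 2 ^ m)
          (hpl a cz G Q ζ (zx ξ) 0) = 2 * Real.exp μ₀ * Mj a L pos zx cz G Q m ζ ξ 0 := by
        unfold Mj
        ring
      rw [e3]
      exact hcs)
    hnot
    (by
      have e4 : (∑ j ∈ range (D + 1), (1 / (2 : ℝ) ^ L) ^ j * Mj a L pos zx cz G Q 0 ζ ξ j) =
          NB D L (G (zx ξ)) (lfp a cz (Q ζ) (zx ξ)) (fun _ => 0) 1 := by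
        unfold NB
        refine Finset.sum_congr rfl fun j _ => ?_
        rw [hMz]
        rfl
      have e5 : (∑ j ∈ range (D + 1), (1 / (2 : ℝ) ^ L) ^ j * Mj a L pos zx cz G Q m ζ ξ j) =
          NB D L (G (zx ξ)) (lfp a cz (Q ζ) (zx ξ)) (crb m (scb L pos m ξ)) (1 / 2 ^ m) := rfl
      simp only [e4, e5]
      exact hNB)
    hdep hJ4 hμ hCs0 hCs hCt0 hCp1 hCpt hCp hr hL hΛ
  obtain ⟨m1, m2, m3, m4, m5, i, β, kk, m6, m7, m8, m9, m10⟩ := hmain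
  exact ⟨_, rfl, m1, m2, m3, m4, m5, i, β, kk, m6, m7, m8, m9, m10⟩

end JC

end Pool.KJ
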