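import Pool.Agent.H4.KJ.JCE

/-!
# LEMMA J, row JCE: assembly
-/

set_option autoImplicit false

namespace Pool.KJ

open Finset Real
open Pool.Agent.H49.Ent Pool.Agent.H32.Dense Pool.STK Pool.KAF Pool.KAL Pool.KST Pool.KS3

namespace JC

/-- The event for the scale `P`, the exponent `β` and the direction `kk`. -/
def Bv {n : ℕ} {Ξ Z : Type} (a L m k w D Kd : ℕ) (pos : Ξ → Option (Fin n) → ℕ) (zx : Ξ → Z)
    (cz : Z → Option (Fin n) → ℕ) (G : Z → MvPolynomial (Fin n) ℝ)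
    (Q : Z → MvPolynomial (Option (Fin n)) ℝ) (bb : Z → Ξ → ℕ) (P : ℕ) (β : Fin n →₀ ℕ)
    (kk : Fin n) (ζ : Z) (ξ : Ξ) : Prop :=
  m ∣ bb ζ ξ ∧ bb ζ ξ ≤ L ∧ bb ζ ξ + m * P ≤ L + m * (P / w ^ 2) ∧
    Th D (m * k) (Mj a L pos zx cz G Q (bb ζ ξ) ζ ξ) ∧
    Ft D (m * k + (Kd + 1) * m) (Mj a L pos zx cz G Q (bb ζ ξ) ζ ξ) ∧
    0 < Mj a L pos zx cz G Q (bb ζ ξ) ζ ξ 0 ∧
    |tc (bb ζ ξ) (hpl a cz G Q ζ (zx ξ) 0) (yb L pos ξ) β| ≤
      Mj a L pos zx cz G Q (bb ζ ξ) ζ ξ 0 / 2 ^ (m * P) ∧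
    Mj a L pos zx cz G Q (bb ζ ξ) ζ ξ 0 ≤ 2 ^ (m * (P / w ^ 2)) *
      |tc (bb ζ ξ) (hpl a cz G Q ζ (zx ξ) 0) (yb L pos ξ) (β + Finsupp.single kk 1)|

theorem dbl_snd_pos {Ω Λ : Type} [Fintype Ω] {p : Ω → ℝ} {lam : Ω → Λ} (hp : ∀ ω, 0 ≤ p ω)
    {v : Ω × Ω} (hv : 0 < dbl p lam v) : 0 < p v.2 :=
  (dbl_snd hp).pos (dbl_nonneg hp) hv

end JC

open JC in
/-- **Row JCE.** -/
theorem jce_of (hJ3 : J3Stmt) (hJ3P : J3PStmt) (hTCB : TCBStmt) (hSUB : SUBStmt)
    (hJ4 : J4Stmt) : JCEStmt := by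
  classical
  intro n D u w C₀ CD hn hC₀ hw
  obtain ⟨C₃, hC₃, hJ3⟩ := hJ3 n D C₀ hC₀
  obtain ⟨I, hI⟩ : ∃ I : ℕ, I = ⌈2 * (64 * C₃ + 4)⌉₊ := ⟨_, rfl⟩
  have hI' : 2 * (64 * C₃ + 4) ≤ (I : ℝ) := by
    rw [hI]
    exact Nat.le_ceil _
  obtain ⟨Ic, hJ4⟩ := hJ4 n I w (by omega)
  have : NeZero n := ⟨by omega⟩
  obtain ⟨T, hT⟩ : ∃ T : Finset (ℕ × (Fin n →₀ ℕ) × Fin n),
      T = (range (Ic + 1)) ×ˢ ((expBox (Fin n) I) ×ˢ univ) := ⟨_, rfl⟩
  have hTne : T.Nonempty := by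
    refine ⟨(0, 0, 0), ?_⟩
    rw [hT, Finset.mem_product, Finset.mem_product]
    refine ⟨Finset.mem_range.2 (Nat.succ_pos _), ?_, Finset.mem_univ _⟩
    rw [mem_expBox]
    simp
  have hTc : (1 : ℝ) ≤ T.card := by exact_mod_cast hTne.card_pos
  refine ⟨1 / (32 * T.card), by positivity, ?_, ?_⟩
  · rw [div_le_one (by positivity)]
    linarith only [hTc]
  intro K hK
  obtain ⟨c₁, hc₁⟩ : ∃ c₁ : ℕ, c₁ = ⌈2 * (64 * CD)⌉₊ := ⟨_, rfl⟩
  have hc₁' : 2 * (64 * CD) ≤ (c₁ : ℝ) := by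
    rw [hc₁]
    exact Nat.le_ceil _
  obtain ⟨W, hW⟩ : ∃ W : ℕ, W = w ^ (2 * Ic + 2) * K := ⟨_, rfl⟩
  refine ⟨1 + (c₁ + u) + ((I + 1) * W + 1) + W, by omega, ?_⟩
  intro k₀ E hE
  obtain ⟨Kd, hKd⟩ : ∃ Kd : ℕ, Kd = (k₀ + 1) * D := ⟨_, rfl⟩
  exact by
   obtain ⟨C₂, hC₂, hJ3⟩ := hJ3 k₀
   obtain ⟨Cp, hCp, hJ3P⟩ := hJ3P n Kd
   obtain ⟨Ct, hCt, hTCB⟩ := hTCB n Kd
   obtain ⟨Cs, hCs, hSUB⟩ := hSUB n Kd
   refine ⟨Kd + 1 + ⌈4 * (64 * C₃ + 2)⌉₊, ?_⟩
   intro M hM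
   have hM1 : 1 ≤ M := by omega
   have hMK : Kd + 1 ≤ M := by omega
   have hMC : 4 * (64 * C₃ + 2) ≤ (M : ℝ) := by
     have h1 : 4 * (64 * C₃ + 2) ≤ (⌈4 * (64 * C₃ + 2)⌉₊ : ℝ) := Nat.le_ceil _
     have h2 : ((⌈4 * (64 * C₃ + 2)⌉₊ : ℕ) : ℝ) ≤ M := by
       exact_mod_cast (by omega : ⌈4 * (64 * C₃ + 2)⌉₊ ≤ M)
     linarith only [h1, h2]
   have hMr : (1 : ℝ) ≤ M := by exact_mod_cast hM1
   obtain ⟨B, hB⟩ : ∃ B : ℝ, B = 64 * C₂ := ⟨_, rfl⟩
   have hB0 : 0 < B := by rw [hB]; linarith only [hC₂]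
   obtain ⟨η₁, κ₀, N₀, m₁, hη0, hηρ, hκ1, hRR⟩ := RR_small1 n E hn (1 / (M * B)) (by positivity)
   obtain ⟨m₂, hm₂⟩ : ∃ m₂ : ℕ, m₂ = ⌈Cp⌉₊ + ⌈Cs⌉₊ + ⌈Cp * Ct⌉₊ + 2 * D + 1 := ⟨_, rfl⟩
   refine ⟨η₁, κ₀, N₀, m₁ + m₂, hη0, hκ1, ?_⟩
   intro m e₀ L r₂ Ω Λ Ξ Z _ p lam x Tt pos A B' zx zl cz G γ δ ε e₁ e₃ e Q hm₀ he₀ hmL hLE
     he₁ he₃ hγ hε hF hQ hQd hPr k hk1 hk2
   have hp := hF.step.leaf.isLaw
   have hp0 := hp.nonneg
   have hq0 : ∀ v, 0 ≤ dbl p lam v := dbl_nonneg hp0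
   obtain ⟨A₀, hA₀⟩ : ∃ A₀ : ℕ, A₀ = 1 + (c₁ + u) + ((I + 1) * W + 1) + W := ⟨_, rfl⟩
   rw [← hA₀] at hk2 ⊢
   have hm1 : 1 ≤ m := by omega
   have hme : m ≤ e₀ := by
     rw [he₀]
     exact Nat.le_mul_of_pos_left _ hM1
   exact by
    have hmr : (1 : ℝ) ≤ m := by exact_mod_cast hm1
    have he0r : (0 : ℝ) ≤ e₀ := Nat.cast_nonneg e₀
    have hmer : (m : ℝ) ≤ e₀ := by exact_mod_cast hme
    have he₀r : (e₀ : ℝ) = M * m := by
      rw [he₀]
      push_cast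
      rfl
    have hA1 : 1 ≤ A₀ := by omega
    have hmL' : m ≤ L := by
      calc m ≤ e₀ := hme
        _ ≤ A₀ * e₀ := Nat.le_mul_of_pos_left _ hA1
        _ ≤ L := by omega
    -- the error
    obtain ⟨R, hR⟩ : ∃ R, R = RR n L κ₀ γ N₀ ε e₁ e₃ := ⟨_, rfl⟩
    have hRle : R ≤ 1 / (M * B) * e₀ := by
      rw [hR]
      exact hRR e₀ L γ ε e₁ e₃ (by omega) hLE he₁ he₃ hγ hε
    have hRC₂ : 64 * C₂ * R ≤ m := by
      have h1 : (1 : ℝ) / (M * B) * e₀ * B = m := by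
        rw [he₀r]
        field_simp
      calc 64 * C₂ * R = R * B := by rw [hB]; ring
        _ ≤ 1 / (M * B) * e₀ * B := mul_le_mul_of_nonneg_right hRle hB0.le
        _ = m := h1
    -- sizes of the constants
    have hm₂m : (m₂ : ℝ) ≤ m := by exact_mod_cast (by omega : m₂ ≤ m)
    have hm₂' : (m₂ : ℝ) = ⌈Cp⌉₊ + ⌈Cs⌉₊ + ⌈Cp * Ct⌉₊ + 2 * D + 1 := by
      rw [hm₂]
      push_cast
      ring
    exact by
     have g1 : Cp ≤ ⌈Cp⌉₊ := Nat.le_ceil _
     have g2 : Cs ≤ ⌈Cs⌉₊ := Nat.le_ceil _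
     have g3 : Cp * Ct ≤ ⌈Cp * Ct⌉₊ := Nat.le_ceil _
     have g1' : (0 : ℝ) ≤ ⌈Cp⌉₊ := Nat.cast_nonneg _
     have g2' : (0 : ℝ) ≤ ⌈Cs⌉₊ := Nat.cast_nonneg _
     have g3' : (0 : ℝ) ≤ ⌈Cp * Ct⌉₊ := Nat.cast_nonneg _
     have hD0 : (0 : ℝ) ≤ D := Nat.cast_nonneg D
     have hCpm : Cp + 1 ≤ m := by linarith only [hCs, hm₂m, hm₂', g1, g2]
     have hCsm : Cs ≤ m := by linarith only [hCp, hm₂m, hm₂', g1, g2]
     have hCptm : Cp * Ct ≤ m := by linarith only [hCp, hCs, hm₂m, hm₂', g1, g2, g3]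
     have hDm : 2 * (D : ℝ) ≤ m := by linarith only [hCp, hCs, hm₂m, hm₂', g1, g2]
     have hlog2 : (1 / 2 : ℝ) ≤ Real.log 2 := by
       have := Real.log_two_gt_d9
       linarith only [this]
     have hlog2' : Real.log 2 ≤ 1 := by
       have := Real.log_two_lt_d9
       linarith only [this]
     have h2L : (0 : ℝ) < 2 ^ L := by positivity
     have hQd := hQd (1 / 64) (by norm_num)
     have hQ3 := hJ3 (3 * e₀) L Ω Λ Ξ Z p lam x Tt pos A B' zx zl cz G κ₀ γ N₀ m δ ε e₁ e₃ (1 / 64)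
       e hF hmL' (by norm_num)
     rw [← hR] at hQ3
     obtain ⟨μ₀, hμ₀⟩ : ∃ μ₀ : ℝ, μ₀ = (C₃ * m + C₂ * R) / (1 / 64) := ⟨_, rfl⟩
     have hμle : μ₀ ≤ (64 * C₃ + 1) * m := by
       have h1 : μ₀ = 64 * C₃ * m + 64 * C₂ * R := by
         rw [hμ₀]
         ring
       rw [h1]
       linarith only [hRC₂]
     have hC₃m : 0 ≤ C₃ * m := by positivity
     exact by
      rw [← hμ₀] at hQ3
      obtain ⟨ev3, hev3⟩ : ∃ ev3 : Ω → Prop, ev3 = fun ω =>
          ∃ P : MvPolynomial (Option (Fin n)) ℝ, P ≠ 0 ∧ P.totalDegree ≤ D ∧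
            Real.exp μ₀ * NB D L (G (zx (x ω))) P (crb m (scb L pos m (x ω))) (1 / 2 ^ m) <
              NB D L (G (zx (x ω))) P (fun _ => 0) 1 := ⟨_, rfl⟩
      rw [← hev3] at hQ3
      have hQ3' : Pe (dbl p lam) (fun v => ev3 v.2) ≤ 1 / 64 := by
        rw [Pe_snd hp0]
        exact hQ3
      obtain ⟨evD, hevD⟩ : ∃ evD : Ω × Ω → Prop, evD = fun v =>
          ¬ ∃ j, 1 ≤ j ∧ j ≤ D ∧
              2 ^ (L * (j - 1)) * Mj (3 * e₀) L pos zx cz G Q L (zx (x v.1)) (x v.2) 0 ≤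
                Real.exp (CD * e₀ / (1 / 64)) * (2 ^ (u * e₀) / 2 ^ L) *
                  Mj (3 * e₀) L pos zx cz G Q L (zx (x v.1)) (x v.2) j := ⟨_, rfl⟩
      rw [← hevD] at hQd
      obtain ⟨evG, hevG⟩ : ∃ evG : Ω × Ω → Prop, evG = fun v =>
          ¬ Th D r₂ (Mj (3 * e₀) L pos zx cz G Q 0 (zx (x v.1)) (x v.2)) ∧ ¬ ev3 v.2 ∧ ¬ evD v :=
        ⟨_, rfl⟩
      have hPG : 1 / 32 ≤ Pe (dbl p lam) evG := by
        have h1 : Pe (dbl p lam) (fun v =>
            ¬ Th D r₂ (Mj (3 * e₀) L pos zx cz G Q 0 (zx (x v.1)) (x v.2))) ≤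
            Pe (dbl p lam) evG + Pe (dbl p lam) (fun v => ev3 v.2 ∨ evD v) := by
          refine Pe_le_add hq0 fun v _ hv => ?_
          rw [hevG]
          by_cases h3 : ev3 v.2
          · exact Or.inr (Or.inl h3)
          · by_cases hd : evD v
            · exact Or.inr (Or.inr hd)
            · exact Or.inl ⟨hv, h3, hd⟩
        have h2 : Pe (dbl p lam) (fun v => ev3 v.2 ∨ evD v) ≤
            Pe (dbl p lam) (fun v => ev3 v.2) + Pe (dbl p lam) evD :=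
          Pe_le_add hq0 fun v _ hv => hv
        linarith only [hPr, hQ3', hQd, h1, h2]
      -- the numbers
      exact by
       have hKdm : (Kd + 1) * m ≤ e₀ := by
         rw [he₀]
         exact Nat.mul_le_mul_right _ hMK
       have hr₂L : e₀ ≤ L - r₂ := by
         have : 1 * e₀ ≤ A₀ * e₀ := Nat.mul_le_mul_right _ hA1
         omega
       have hμI : μ₀ + Real.log 2 + Cp ≤ I * (m * Real.log 2) := by
         have h1 : (64 * C₃ + 4) * m ≤ I * (m * Real.log 2) := by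
           have h2 : (64 * C₃ + 4) * m = 2 * (64 * C₃ + 4) * (m * (1 / 2)) := by ring
           rw [h2]
           refine mul_le_mul hI' (mul_le_mul_of_nonneg_left hlog2 (by linarith only [hCp, hCs, hm₂m, hm₂', g1, g2])) (by positivity)
             (Nat.cast_nonneg I)
         linarith only [hCp, hCs, hRC₂, hm₂m, hm₂', g1, g2, hlog2', hμ₀, h1]
       have hμD : Real.exp μ₀ * (2 * D) ≤ 2 ^ (L - r₂) := by
         have h1 : 2 * (D : ℝ) ≤ Real.exp (2 * D) := by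
           have := Real.add_one_le_exp (2 * (D : ℝ))
           linarith only [this]
         have h2 : Real.exp μ₀ * (2 * D) ≤ Real.exp (μ₀ + 2 * D) := by
           rw [Real.exp_add]
           exact mul_le_mul_of_nonneg_left h1 (Real.exp_pos _).le
         refine h2.trans (exp_le_two_pow ?_)
         have h3 : 4 * (64 * C₃ + 2) * m ≤ e₀ := by
           rw [he₀r]
           exact mul_le_mul_of_nonneg_right hMC (by linarith only [hCp, hCs, hm₂m, hm₂', g1, g2])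
         have h4 : (e₀ : ℝ) ≤ ((L - r₂ : ℕ) : ℝ) := by exact_mod_cast hr₂L
         linarith only [hCp, hCs, hRC₂, hm₂m, hm₂', g1, g2, hμ₀, hC₃m, h3, h4]
       have hWe : (I + 1) * (m * (w ^ (2 * Ic + 2) * (K * M))) + e₀ ≤ ((I + 1) * W + 1) * e₀ := by
         refine le_of_eq ?_
         rw [hW, he₀]
         ring
       exact by
        have hLtot : m * k + (Kd + 1) * m + (c₁ + u) * e₀ + ((I + 1) * W + 1) * e₀ ≤ L := by
          have h1 : A₀ * e₀ = e₀ + (c₁ + u) * e₀ + ((I + 1) * W + 1) * e₀ + W * e₀ := by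
            rw [hA₀]
            ring
          omega
        -- the pigeonhole
        obtain ⟨bb, hbb⟩ : ∃ bb : Z → Ξ → ℕ, bb = fun ζ ξ =>
            bbF D (m * k) m (fun b => Mj (3 * e₀) L pos zx cz G Q b ζ ξ) := ⟨_, rfl⟩
        obtain ⟨t, htT, htP⟩ := Pe_pigeon (p := dbl p lam) hq0 T hTne (A := evG)
          (fun t v => Bv (3 * e₀) L m k w D Kd pos zx cz G Q bb (w ^ (2 * t.1 + 2) * (K * M)) t.2.1
            t.2.2 (zx (x v.1)) (x v.2)) (by
          intro v hv hG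
          rw [hevG] at hG
          obtain ⟨hG1, hG2, hG3⟩ := hG
          have hv2 := dbl_snd_pos hp0 hv
          have hdeg : ∀ j, (hpl (3 * e₀) cz G Q (zx (x v.1)) (zx (x v.2)) j).totalDegree ≤ Kd := by
            intro j
            rw [hKd]
            exact hpl_deg (hF.reg v.2 hv2).deg (hQ _).2 j
          have hNB : NB D L (G (zx (x v.2))) (lfp (3 * e₀) cz (Q (zx (x v.1))) (zx (x v.2)))
              (fun _ => 0) 1 ≤ Real.exp μ₀ * NB D L (G (zx (x v.2)))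
              (lfp (3 * e₀) cz (Q (zx (x v.1))) (zx (x v.2))) (crb m (scb L pos m (x v.2)))
              (1 / 2 ^ m) := by
            by_contra hc
            push Not at hc
            apply hG2
            rw [hev3]
            exact ⟨_, lfp_ne (hQ _).1, lfp_deg (hQ _).2, hc⟩
          have hdep : ∃ j, 1 ≤ j ∧ j ≤ D ∧
              2 ^ (L * j) * Mj (3 * e₀) L pos zx cz G Q L (zx (x v.1)) (x v.2) 0 ≤
              2 ^ ((c₁ + u) * e₀) * Mj (3 * e₀) L pos zx cz G Q L (zx (x v.1)) (x v.2) j := by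
            rw [hevD] at hG3
            rw [not_not] at hG3
            obtain ⟨j, hj1, hj2, hj3⟩ := hG3
            refine ⟨j, hj1, hj2, ?_⟩
            have hexp : Real.exp (CD * e₀ / (1 / 64)) ≤ 2 ^ (c₁ * e₀) := by
              refine exp_le_two_pow ?_
              have e1 : 2 * (CD * e₀ / (1 / 64)) = 2 * (64 * CD) * e₀ := by ring
              rw [e1]
              push_cast
              exact mul_le_mul_of_nonneg_right hc₁' he0r
            have hMj0 : 0 ≤ Mj (3 * e₀) L pos zx cz G Q L (zx (x v.1)) (x v.2) j :=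
              SML.cs_nonneg _ _ _
            have hj4 : 2 ^ (L * (j - 1)) * Mj (3 * e₀) L pos zx cz G Q L (zx (x v.1)) (x v.2) 0 ≤
                2 ^ (c₁ * e₀) * (2 ^ (u * e₀) / 2 ^ L) *
                  Mj (3 * e₀) L pos zx cz G Q L (zx (x v.1)) (x v.2) j := by
              refine hj3.trans (mul_le_mul_of_nonneg_right ?_ hMj0)
              exact mul_le_mul_of_nonneg_right hexp (by positivity)
            have e3 : (2 : ℝ) ^ (L * j) = 2 ^ L * 2 ^ (L * (j - 1)) := by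
              rw [← pow_add]
              congr 1
              obtain ⟨j', rfl⟩ : ∃ j', j = j' + 1 := ⟨j - 1, by omega⟩
              rw [Nat.add_sub_cancel]
              ring
            have e4 : (2 : ℝ) ^ ((c₁ + u) * e₀) = 2 ^ L * (2 ^ (c₁ * e₀) * (2 ^ (u * e₀) / 2 ^ L)) := by
              rw [Nat.add_mul, pow_add]
              field_simp
            rw [e3, e4, mul_assoc, mul_assoc]
            exact mul_le_mul_of_nonneg_left hj4 h2L.le
          obtain ⟨b, hb, m1, m2, m3, m4, m5, i, β₁, kk, m6, m7, m8, m9, m10⟩ :=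
            pair_det (n := n) (D := D) (Kd := Kd) (I := I) (w := w) (Ic := Ic) (K := K) (Mm := M)
            (Cp := Cp) (Ct := Ct) (Cs := Cs) hJ3P hTCB hSUB hJ4 (a := 3 * e₀) (L := L) (r₂ := r₂)
            (m := m) (k := k) (e₀ := e₀) (cE := (c₁ + u) * e₀) (Λ₀ := ((I + 1) * W + 1) * e₀)
            (pos := pos) (zx := zx) (cz := cz) (G := G) (Q := Q) (ζ := zx (x v.1)) (ξ := x v.2)
            (μ₀ := μ₀) hdeg hm1 hmL hmL' (by omega) hG1 hNB hdep hμI hμD (by linarith only [hCs])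
            (by
              have := lt_two_pow_of hCsm
              linarith only [this])
            (by linarith only [hCt]) hCp
            (by
              have h1 := lt_two_pow_of hCptm
              have h2 : (2 : ℝ) ^ m ≤ 2 ^ e₀ := pow_le_pow_right₀ (by norm_num) hme
              linarith only [h1, h2])
            (by
              have h1 : Cp < 2 ^ m := lt_two_pow_of (by linarith only [hCs, hm₂m, hm₂', g1, g2])
              have h2 : (2 : ℝ) ^ m ≤ 2 ^ (m * (K * M)) := by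
                refine pow_le_pow_right₀ (by norm_num) (Nat.le_mul_of_pos_right _ ?_)
                exact Nat.mul_pos (by omega) (by omega)
              linarith only [h1, h2])
            (by omega) hLtot hWe
          refine ⟨(i, β₁, kk), ?_, ?_⟩
          · rw [hT, Finset.mem_product, Finset.mem_product]
            refine ⟨Finset.mem_range.2 (by omega), ?_, Finset.mem_univ _⟩
            rw [mem_expBox]
            exact m7.le
          · have hbb' : bb (zx (x v.1)) (x v.2) = b := by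
              rw [hbb, hb]
            unfold Bv
            rw [hbb']
            exact ⟨m1, m2, m8.trans (Nat.le_add_right _ _), m3, m4, m5, m9, m10⟩)
        exact by
         obtain ⟨i, β₁, kk⟩ := t
         rw [hT, Finset.mem_product] at htT
         have hi : i ≤ Ic := by
           have := Finset.mem_range.1 htT.1
           omega
         refine ⟨w ^ (2 * i + 2) * (K * M), β₁, kk, bb,
           Bv (3 * e₀) L m k w D Kd pos zx cz G Q bb (w ^ (2 * i + 2) * (K * M)) β₁ kk, ?_, ?_, ?_, ?_,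
           ?_⟩
         · exact Nat.le_mul_of_pos_left _ (by positivity)
         · calc w ^ (2 * i + 2) * (K * M) ≤ w ^ (2 * Ic + 2) * (K * M) :=
                 Nat.mul_le_mul_right _ (Nat.pow_le_pow_right (by omega) (by omega))
             _ = W * M := by rw [hW]; ring
             _ ≤ A₀ * M := Nat.mul_le_mul_right _ (by omega)
         · exact ⟨w ^ (2 * i) * (K * M), by rw [pow_add]; ring⟩
         · refine le_trans ?_ htP
           rw [div_le_div_iff₀ (by positivity) (by positivity)]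
           have h1 : (1 : ℝ) / 32 * (32 * T.card) ≤ Pe (dbl p lam) evG * (32 * T.card) :=
             mul_le_mul_of_nonneg_right hPG (by positivity)
           linarith only [h1]
         · intro v _ hB
           unfold Bv at hB
           rw [hKd] at hB
           exact hB

end Pool.KJ
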