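import Pool.Agent.H4.KJ.JCF
import Pool.Agent.H74.KJ.J3
import Pool.Agent.H54.KJ.Pure
import Pool.Agent.H50.KJ.J46

/-!
Row JCE of LEMMA J, with no hypothesis left.
-/

namespace Pool.KJ

theorem jce_thm : JCEStmt :=
  jce_of Pool.KJ74.j3_thm j3p_thm tcb_thm sub_thm j4_thm

end Pool.KJ
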