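import Pool.Agent.H72.KJ.Stmts

/-!
# LEMMA J, row NEA: a polynomial which is small against its derivative has a root near by
-/

set_option autoImplicit false

namespace Pool.KJ

open Finset Real

namespace NEA

open Polynomial

/-- Taylor coefficients of a product of linear factors without roots near `N`. -/
theorem coeff_prod_le (N : ℂ) {r : ℝ} (hr : 0 < r) (s : Multiset ℂ) :
    (∀ z ∈ s, r ≤ ‖N - z‖) → ∀ j : ℕ,
      ‖(taylor N (s.map (fun z => Polynomial.X - C z)).prod).coeff j‖ * r ^ j ≤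
        2 ^ Multiset.card s * ‖((s.map (fun z => Polynomial.X - C z)).prod).eval N‖ := by
  induction s using Multiset.induction_on with
  | empty =>
    intro _ j
    rw [Multiset.map_zero, Multiset.prod_zero, taylor_one, Multiset.card_zero, pow_zero, one_mul,
      eval_one, norm_one]
    rcases Nat.eq_zero_or_pos j with h | h
    · subst h
      simp
    · rw [coeff_C_of_ne_zero h.ne', norm_zero, zero_mul]
      exact zero_le_one
  | cons z s ih =>
    intro hs j
    have hz : r ≤ ‖N - z‖ := hs z (Multiset.mem_cons_self z s)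
    have ih' := ih fun w hw => hs w (Multiset.mem_cons_of_mem hw)
    obtain ⟨P, hP⟩ : ∃ P, P = (s.map (fun z => Polynomial.X - C z)).prod := ⟨_, rfl⟩
    rw [← hP] at ih'
    rw [Multiset.map_cons, Multiset.prod_cons, ← hP, Multiset.card_cons]
    have e1 : taylor N ((Polynomial.X - C z) * P) = (Polynomial.X + C (N - z)) * taylor N P := by
      rw [taylor_mul, map_sub, taylor_X, taylor_C, C_sub]
      ring
    have e2 : ((Polynomial.X - C z) * P).eval N = (N - z) * P.eval N := by
      rw [eval_mul, eval_sub, eval_X, eval_C]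
    rw [e1, e2, norm_mul, add_mul, coeff_add, coeff_C_mul]
    have hnz : 0 ≤ ‖N - z‖ := norm_nonneg _
    have hB : 0 ≤ 2 ^ Multiset.card s * ‖P.eval N‖ := by positivity
    have h2 : ‖(N - z) * (taylor N P).coeff j‖ * r ^ j ≤
        ‖N - z‖ * (2 ^ Multiset.card s * ‖P.eval N‖) := by
      rw [norm_mul, mul_assoc]
      exact mul_le_mul_of_nonneg_left (ih' j) hnz
    have h1 : ‖(Polynomial.X * taylor N P).coeff j‖ * r ^ j ≤
        ‖N - z‖ * (2 ^ Multiset.card s * ‖P.eval N‖) := by
      cases j with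
      | zero =>
        rw [coeff_X_mul_zero, norm_zero, zero_mul]
        exact mul_nonneg hnz hB
      | succ i =>
        rw [coeff_X_mul, pow_succ, ← mul_assoc, mul_comm _ r]
        exact mul_le_mul hz (ih' i) (by positivity) hnz
    calc ‖(Polynomial.X * taylor N P).coeff j + (N - z) * (taylor N P).coeff j‖ * r ^ j ≤
        (‖(Polynomial.X * taylor N P).coeff j‖ + ‖(N - z) * (taylor N P).coeff j‖) * r ^ j :=
          mul_le_mul_of_nonneg_right (norm_add_le _ _) (by positivity)
      _ ≤ ‖N - z‖ * (2 ^ Multiset.card s * ‖P.eval N‖) +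
          ‖N - z‖ * (2 ^ Multiset.card s * ‖P.eval N‖) := by
          rw [add_mul]
          exact add_le_add h1 h2
      _ = 2 ^ (Multiset.card s + 1) * (‖N - z‖ * ‖P.eval N‖) := by ring

theorem eval_iterate (q : ℂ[X]) (N : ℂ) (j : ℕ) :
    (derivative^[j] q).eval N = (j.factorial : ℂ) * (taylor N q).coeff j := by
  rw [taylor_coeff, ← factorial_smul_hasseDeriv]
  simp

end NEA

open Polynomial in
/-- **NEA** -/
theorem nea_thm : NEAStmt := by
  intro D
  refine ⟨2 ^ D * (D.factorial : ℝ) + 1, by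
    have : (0 : ℝ) ≤ 2 ^ D * (D.factorial : ℝ) := by positivity
    linarith, ?_⟩
  intro q N ε j hq hj1 hjD hε h hq0
  obtain ⟨C, hC⟩ : ∃ C, C = 2 ^ D * (D.factorial : ℝ) + 1 := ⟨_, rfl⟩
  rw [← hC]
  have hC1 : 1 ≤ C := by
    have : (0 : ℝ) ≤ 2 ^ D * (D.factorial : ℝ) := by positivity
    linarith
  by_contra hcon
  push Not at hcon
  obtain ⟨Q, hQ⟩ : ∃ Q, Q = q.map (algebraMap ℝ ℂ) := ⟨_, rfl⟩
  rw [← hQ] at hcon
  have hQ0 : Q ≠ 0 := by
    rw [hQ]
    exact (Polynomial.map_ne_zero_iff (algebraMap ℝ ℂ).injective).2 hq0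
  have hev : Q.eval (N : ℂ) = ((q.eval N : ℝ) : ℂ) := by
    rw [hQ, eval_map]
    exact eval₂_at_apply (algebraMap ℝ ℂ) N
  have hevj : (derivative^[j] Q).eval (N : ℂ) = (((derivative^[j] q).eval N : ℝ) : ℂ) := by
    rw [hQ, iterate_derivative_map, eval_map]
    exact eval₂_at_apply (algebraMap ℝ ℂ) N
  have hr : 0 < C * ε := by positivity
  have hfar : ∀ z ∈ Q.roots, C * ε ≤ ‖(N : ℂ) - z‖ := by
    intro z hz
    refine (hcon z hz).le.trans ?_
    have := Complex.abs_re_le_norm ((N : ℂ) - z)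
    rwa [Complex.sub_re, Complex.ofReal_re] at this
  have hN : q.eval N ≠ 0 := by
    intro h0
    have hroot : (N : ℂ) ∈ Q.roots := by
      rw [mem_roots hQ0, IsRoot.def, hev, h0, Complex.ofReal_zero]
    have := hcon _ hroot
    rw [Complex.ofReal_re, sub_self, abs_zero] at this
    linarith
  have hfac : Q = Polynomial.C Q.leadingCoeff * (Q.roots.map (fun z => Polynomial.X - Polynomial.C z)).prod :=
    (IsAlgClosed.splits Q).eq_prod_roots
  have key := NEA.coeff_prod_le (N : ℂ) hr Q.roots hfar j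
  obtain ⟨P, hP⟩ : ∃ P, P = (Q.roots.map (fun z => Polynomial.X - Polynomial.C z)).prod := ⟨_, rfl⟩
  rw [← hP] at key hfac
  have hcoef : (taylor (N : ℂ) Q).coeff j = Q.leadingCoeff * (taylor (N : ℂ) P).coeff j := by
    conv_lhs => rw [hfac]
    rw [taylor_mul, taylor_C, coeff_C_mul]
  have hevP : Q.eval (N : ℂ) = Q.leadingCoeff * P.eval (N : ℂ) := by
    conv_lhs => rw [hfac]
    rw [eval_mul, eval_C]
  have hcard : Multiset.card Q.roots ≤ D := by
    refine (card_roots' Q).trans ?_
    rw [hQ]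
    exact (natDegree_map_le).trans hq
  have h1 : ‖(taylor (N : ℂ) Q).coeff j‖ * (C * ε) ^ j ≤ 2 ^ D * |q.eval N| := by
    have e1 : ‖Q.eval (N : ℂ)‖ = |q.eval N| := by
      rw [hev, Complex.norm_real, Real.norm_eq_abs]
    rw [← e1, hcoef, hevP, norm_mul, norm_mul, mul_assoc]
    calc ‖Q.leadingCoeff‖ * (‖(taylor (N : ℂ) P).coeff j‖ * (C * ε) ^ j) ≤
        ‖Q.leadingCoeff‖ * (2 ^ Multiset.card Q.roots * ‖P.eval (N : ℂ)‖) :=
          mul_le_mul_of_nonneg_left key (norm_nonneg _)
      _ ≤ ‖Q.leadingCoeff‖ * (2 ^ D * ‖P.eval (N : ℂ)‖) := by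
          refine mul_le_mul_of_nonneg_left ?_ (norm_nonneg _)
          exact mul_le_mul_of_nonneg_right (pow_le_pow_right₀ (by norm_num) hcard) (norm_nonneg _)
      _ = 2 ^ D * (‖Q.leadingCoeff‖ * ‖P.eval (N : ℂ)‖) := by ring
  have h2 : |(derivative^[j] q).eval N| = j.factorial * ‖(taylor (N : ℂ) Q).coeff j‖ := by
    have e1 := NEA.eval_iterate Q (N : ℂ) j
    rw [hevj] at e1
    have e2 := congrArg norm e1
    rw [Complex.norm_real, Real.norm_eq_abs, norm_mul, Complex.norm_natCast] at e2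
    exact e2
  have hfj : (j.factorial : ℝ) ≤ D.factorial := by exact_mod_cast Nat.factorial_le hjD
  have h3 : |q.eval N| * C ^ j ≤ 2 ^ D * D.factorial * |q.eval N| := by
    calc |q.eval N| * C ^ j ≤ (ε ^ j * |(derivative^[j] q).eval N|) * C ^ j :=
          mul_le_mul_of_nonneg_right h (by positivity)
      _ = j.factorial * (‖(taylor (N : ℂ) Q).coeff j‖ * (C * ε) ^ j) := by
          rw [h2, mul_pow]
          ring
      _ ≤ D.factorial * (2 ^ D * |q.eval N|) :=
          mul_le_mul hfj h1 (by positivity) (by positivity)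
      _ = 2 ^ D * D.factorial * |q.eval N| := by ring
  have hpos : 0 < |q.eval N| := abs_pos.2 hN
  have h4 : C ≤ C ^ j := le_self_pow₀ hC1 (by omega)
  nlinarith

end Pool.KJ
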